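import Pool.Agent.V11126.Cons.Glue

namespace Pool.Agent.V11126.Cons

def dK0 : List ℕ := dR ++ dT1 ++ dT2 ++ dT3 ++ dT4 ++ dT5 ++ dT6 ++ dT7 ++ dT8 ++ dT9 ++ dT10

def dK1 : List ℕ := dR ++ dP0 ++ dT2 ++ dT3 ++ dT4 ++ dT5 ++ dT6 ++ dT7 ++ dT8 ++ dT9 ++ dT10

def dK2 : List ℕ := dR ++ dP0 ++ dP1 ++ dT3 ++ dT4 ++ dT5 ++ dT6 ++ dT7 ++ dT8 ++ dT9 ++ dT10

def dK3 : List ℕ := dR ++ dP0 ++ dP1 ++ dP2 ++ dT4 ++ dT5 ++ dT6 ++ dT7 ++ dT8 ++ dT9 ++ dT10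

def dK4 : List ℕ := dR ++ dP0 ++ dP1 ++ dP2 ++ dP3 ++ dT5 ++ dT6 ++ dT7 ++ dT8 ++ dT9 ++ dT10

def dK5 : List ℕ := dR ++ dP0 ++ dP1 ++ dP2 ++ dP3 ++ dP4 ++ dT6 ++ dT7 ++ dT8 ++ dT9 ++ dT10

def dK6 : List ℕ := dR ++ dP0 ++ dP1 ++ dP2 ++ dP3 ++ dP4 ++ dP5 ++ dT7 ++ dT8 ++ dT9 ++ dT10

def dK7 : List ℕ := dR ++ dP0 ++ dP1 ++ dP2 ++ dP3 ++ dP4 ++ dP5 ++ dP6 ++ dT8 ++ dT9 ++ dT10

def dK8 : List ℕ := dR ++ dP0 ++ dP1 ++ dP2 ++ dP3 ++ dP4 ++ dP5 ++ dP6 ++ dP7 ++ dT9 ++ dT10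

def dK9 : List ℕ := dR ++ dP0 ++ dP1 ++ dP2 ++ dP3 ++ dP4 ++ dP5 ++ dP6 ++ dP7 ++ dP8 ++ dT10

def dK10 : List ℕ := dR ++ dP0 ++ dP1 ++ dP2 ++ dP3 ++ dP4 ++ dP5 ++ dP6 ++ dP7 ++ dP8 ++ dP9

theorem uT0 : ckTr 57896044618658097711785492504343953926634992332820282019728792003958712084999 dtr0 dK0 = true := by decide +kernel

theorem hT0 : Nonempty (Rm (dT0 ++ dK0) ≃ₜ Rm (dP0 ++ dK0)) :=
  runM_frame 57896044618658097711785492504343953926634992332820282019728792003958712084999 dtr0 dK0 uT0 dP0 dms0 dT0 kK0 kJ0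

theorem uT1 : ckTr 57896044618658097711785492504343953926634992332820282019728792021546603517513 dtr1 dK1 = true := by decide +kernel

theorem hT1 : Nonempty (Rm (dT1 ++ dK1) ≃ₜ Rm (dP1 ++ dK1)) :=
  runM_frame 57896044618658097711785492504343953926634992332820282019728792021546603517513 dtr1 dK1 uT1 dP1 dms1 dT1 kK1 kJ1

theorem uT2 : ckTr 57896044618658097711785492504343953926634992332820282019728936101552454723857 dtr2 dK2 = true := by decide +kernel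

theorem hT2 : Nonempty (Rm (dT2 ++ dK2) ≃ₜ Rm (dP2 ++ dK2)) :=
  runM_frame 57896044618658097711785492504343953926634992332820282019728936101552454723857 dtr2 dK2 uT2 dP2 dms2 dT2 kK2 kJ2

theorem uT3 : ckTr 57896044618658097711785492504343953926634992332820282020909239509485900473505 dtr3 dK3 = true := by decide +kernel

theorem hT3 : Nonempty (Rm (dT3 ++ dK3) ≃ₜ Rm (dP3 ++ dK3)) :=
  runM_frame 57896044618658097711785492504343953926634992332820282020909239509485900473505 dtr3 dK3 uT3 dP3 dms3 dT3 kK3 kJ3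

theorem uT4 : ckTr 57896044618658097711785492504343953926634992332820291689954757300272551189770 dtr4 dK4 = true := by decide +kernel

theorem hT4 : Nonempty (Rm (dT4 ++ dK4) ≃ₜ Rm (dP4 ++ dK4)) :=
  runM_frame 57896044618658097711785492504343953926634992332820291689954757300272551189770 dtr4 dK4 uT4 dP4 dms4 dT4 kK4 kJ4

theorem uT5 : ckTr 57896044618658097711785492504343953926634992332899500510836499424516711208082 dtr5 dK5 = true := by decide +kernel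

theorem hT5 : Nonempty (Rm (dT5 ++ dK5) ≃ₜ Rm (dP5 ++ dK5)) :=
  runM_frame 57896044618658097711785492504343953926634992332899500510836499424516711208082 dtr5 dK5 uT5 dP5 dms5 dT5 kK5 kJ5

theorem uT6 : ckTr 57896044618658097711785492504343953926634992981778161174067981232675062252130 dtr6 dK6 = true := by decide +kernel

theorem hT6 : Nonempty (Rm (dT6 ++ dK6) ≃ₜ Rm (dP6 ++ dK6)) :=
  runM_frame 57896044618658097711785492504343953926634992981778161174067981232675062252130 dtr6 dK6 uT6 dP6 dms6 dT6 kK6 kJ6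

theorem uT7 : ckTr 57896044618658097711785492504343953926640308595766314366366953665885645059724 dtr7 dK7 = true := by decide +kernel

theorem hT7 : Nonempty (Rm (dT7 ++ dK7) ≃ₜ Rm (dP7 ++ dK7)) :=
  runM_frame 57896044618658097711785492504343953926640308595766314366366953665885645059724 dtr7 dK7 uT7 dP7 dms7 dT7 kK7 kJ7

theorem uT8 : ckTr 57896044618658097711785492504343953970185818386717265679549126526981774684244 dtr8 dK8 = true := by decide +kernel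

theorem hT8 : Nonempty (Rm (dT8 ++ dK8) ≃ₜ Rm (dP8 ++ dK8)) :=
  runM_frame 57896044618658097711785492504343953970185818386717265679549126526981774684244 dtr8 dK8 uT8 dP8 dms8 dT8 kK8 kJ8

theorem uT9 : ckTr 57896044618658097711785492504344310695002025856910423267909204626474329628964 dtr9 dK9 = true := by decide +kernel

theorem hT9 : Nonempty (Rm (dT9 ++ dK9) ≃ₜ Rm (dP9 ++ dK9)) :=
  runM_frame 57896044618658097711785492504344310695002025856910423267909204626474329628964 dtr9 dK9 uT9 dP9 dms9 dT9 kK9 kJ9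

theorem uT10 : ckTr 57896044618658097711785492507266600389373621679257387113668995669484334371896 dtr10 dK10 = true := by decide +kernel

theorem hT10 : Nonempty (Rm (dT10 ++ dK10) ≃ₜ Rm (dP10 ++ dK10)) :=
  runM_frame 57896044618658097711785492507266600389373621679257387113668995669484334371896 dtr10 dK10 uT10 dP10 dms10 dT10 kK10 kJ10

theorem eT0 (m : ℕ) : m ∈ dP0 ++ dK0 ↔ m ∈ dT1 ++ dK1 := by
  simp only [dK0, dK1, List.mem_append]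
  tauto

theorem eT1 (m : ℕ) : m ∈ dP1 ++ dK1 ↔ m ∈ dT2 ++ dK2 := by
  simp only [dK1, dK2, List.mem_append]
  tauto

theorem eT2 (m : ℕ) : m ∈ dP2 ++ dK2 ↔ m ∈ dT3 ++ dK3 := by
  simp only [dK2, dK3, List.mem_append]
  tauto

theorem eT3 (m : ℕ) : m ∈ dP3 ++ dK3 ↔ m ∈ dT4 ++ dK4 := by
  simp only [dK3, dK4, List.mem_append]
  tauto

theorem eT4 (m : ℕ) : m ∈ dP4 ++ dK4 ↔ m ∈ dT5 ++ dK5 := by
  simp only [dK4, dK5, List.mem_append]
  tauto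

theorem eT5 (m : ℕ) : m ∈ dP5 ++ dK5 ↔ m ∈ dT6 ++ dK6 := by
  simp only [dK5, dK6, List.mem_append]
  tauto

theorem eT6 (m : ℕ) : m ∈ dP6 ++ dK6 ↔ m ∈ dT7 ++ dK7 := by
  simp only [dK6, dK7, List.mem_append]
  tauto

theorem eT7 (m : ℕ) : m ∈ dP7 ++ dK7 ↔ m ∈ dT8 ++ dK8 := by
  simp only [dK7, dK8, List.mem_append]
  tauto

theorem eT8 (m : ℕ) : m ∈ dP8 ++ dK8 ↔ m ∈ dT9 ++ dK9 := by
  simp only [dK8, dK9, List.mem_append]
  tauto

theorem eT9 (m : ℕ) : m ∈ dP9 ++ dK9 ↔ m ∈ dT10 ++ dK10 := by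
  simp only [dK9, dK10, List.mem_append]
  tauto

theorem eS (m : ℕ) : m ∈ dSL ↔ m ∈ dT0 ++ dK0 := by
  rw [mem_SL]
  simp only [dK0, List.mem_append]
  tauto

def dXms : List Mv := [⟨0,520,255,3,[3,9]⟩,⟨1,136192,255,12,[10,12,17]⟩,⟨0,131088,255,4,[4,17]⟩,⟨1,28672,255,12,[12,13,14]⟩,⟨0,16388,255,2,[2,14]⟩,⟨1,172032,255,15,[13,15,17]⟩,⟨0,4098,255,1,[1,12]⟩,⟨1,82944,255,10,[10,14,16]⟩,⟨1,152576,3,14,[10,12,14,17]⟩,⟨0,131076,255,17,[2,17]⟩,⟨1,45056,255,15,[12,13,15]⟩,⟨0,32772,255,15,[2,15]⟩,⟨1,12800,255,9,[9,12,13]⟩,⟨0,16386,255,1,[1,14]⟩,⟨1,68608,255,11,[10,11,16]⟩,⟨1,78848,7,12,[10,12,13,16]⟩,⟨1,168448,6,15,[9,12,15,17]⟩,⟨1,94208,4,14,[12,13,14,16]⟩,⟨0,1026,255,10,[1,10]⟩,⟨1,100352,255,11,[11,15,16]⟩,⟨0,131074,255,17,[1,17]⟩,⟨1,98816,255,9,[9,15,16]⟩,⟨0,69632,255,16,[12,16]⟩,⟨1,25600,255,13,[10,13,14]⟩,⟨0,32769,255,15,[0,15]⟩,⟨1,10752,255,11,[9,11,13]⟩,⟨0,20480,2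55,14,[12,14]⟩,⟨1,140288,255,10,[10,13,17]⟩,⟨0,8448,255,8,[8,13]⟩,⟨1,51200,255,15,[11,14,15]⟩,⟨0,65568,255,16,[5,16]⟩,⟨1,164864,255,15,[10,15,17]⟩,⟨0,36864,255,12,[12,15]⟩,⟨1,139776,255,9,[9,13,17]⟩,⟨0,16385,255,14,[0,14]⟩,⟨1,75776,255,16,[11,13,16]⟩,⟨1,13824,2,9,[9,10,12,13]⟩,⟨1,52224,8,11,[10,11,14,15]⟩,⟨1,140800,12,13,[9,10,13,17]⟩,⟨1,100864,1,11,[9,11,15,16]⟩,⟨0,1536,255,9,[9,10]⟩,⟨1,139265,255,17,[0,13,17]⟩,⟨0,81920,255,14,[14,16]⟩,⟨1,11264,255,11,[10,11,13]⟩,⟨0,18432,255,11,[11,14]⟩,⟨1,41984,255,10,[10,13,15]⟩,⟨0,3072,255,10,[10,11]⟩,⟨1,106496,255,15,[13,15,16]⟩,⟨0,34816,255,11,[11,15]⟩,⟨1,74240,255,9,[9,13,16]⟩,⟨1,74241,11,16,[0,9,13,16]⟩,⟨0,513,255,0,[0,9]⟩,⟨1,204800,255,17,[13,16,17]⟩,⟨1,237568,9,16,[13,15,16,17]⟩,⟨1,181248,5,10,[10,14,15,17]⟩,⟨1,173056,14,13,[10,13,15,17]⟩,⟨1,205824,15,16,[10,13,16,17]⟩]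

def dXf : List ℕ := [74753,197633,140289,204801,205824]

theorem kX : runM dXf dXms (dP10 ++ dK10) = true := by decide +kernel

theorem kXf : Nonempty (Rm dXf ≃ₜ Metric.sphere (0 : EuclideanSpace ℝ (Fin 4)) 1) := by
  have h1 : ∀ m, m ∈ dXf ↔ m ∈ [maskOf [10,13,16,17], maskOf [0,13,16,17], maskOf [0,10,16,17], maskOf [0,10,13,17], maskOf [0,10,13,16]] := by
    have e0 : maskOf [10,13,16,17] = 205824 := by decide +kernel
    have e1 : maskOf [0,13,16,17] = 204801 := by decide +kernel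
    have e2 : maskOf [0,10,16,17] = 197633 := by decide +kernel
    have e3 : maskOf [0,10,13,17] = 140289 := by decide +kernel
    have e4 : maskOf [0,10,13,16] = 74753 := by decide +kernel
    intro m
    rw [e0, e1, e2, e3, e4]
    simp only [dXf, List.mem_cons, List.not_mem_nil, or_false]
    tauto
  rw [Rm_congr h1]
  exact simplex_sphere _ 0 10 13 16 17 rfl (by norm_num) (by norm_num) (by norm_num) (by norm_num) (by norm_num)

theorem sphereS : Nonempty (Rm dSL ≃ₜ Metric.sphere (0 : EuclideanSpace ℝ (Fin 4)) 1) := by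
  rw [Rm_congr eS]
  obtain ⟨h0⟩ := hT0
  obtain ⟨h1⟩ := hT1
  obtain ⟨h2⟩ := hT2
  obtain ⟨h3⟩ := hT3
  obtain ⟨h4⟩ := hT4
  obtain ⟨h5⟩ := hT5
  obtain ⟨h6⟩ := hT6
  obtain ⟨h7⟩ := hT7
  obtain ⟨h8⟩ := hT8
  obtain ⟨h9⟩ := hT9
  obtain ⟨h10⟩ := hT10
  rw [Rm_congr eT0] at h0
  rw [Rm_congr eT1] at h1
  rw [Rm_congr eT2] at h2
  rw [Rm_congr eT3] at h3
  rw [Rm_congr eT4] at h4
  rw [Rm_congr eT5] at h5
  rw [Rm_congr eT6] at h6
  rw [Rm_congr eT7] at h7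
  rw [Rm_congr eT8] at h8
  rw [Rm_congr eT9] at h9
  obtain ⟨hx⟩ := runM_homeo dXf dXms _ kX
  obtain ⟨hf⟩ := kXf
  exact ⟨(((((((((((h0.trans h1).trans h2).trans h3).trans h4).trans h5).trans h6).trans h7).trans h8).trans h9).trans h10).trans hx).trans hf⟩

end Pool.Agent.V11126.Cons
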