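import Pool.Agent.V11126.Cons.Glue

namespace Pool.Agent.V11126.Cons

theorem vB0 : ckB dSL (bms dBZ0) dBZ0 = true := by decide +kernel

theorem vB1 : ckB dSL (bms dBZ1) dBZ1 = true := by decide +kernel

theorem vB2 : ckB dSL (bms dBZ2) dBZ2 = true := by decide +kernel

theorem vB3 : ckB dSL (bms dBZ3) dBZ3 = true := by decide +kernel

theorem vB4 : ckB dSL (bms dBZ4) dBZ4 = true := by decide +kernel

theorem vB5 : ckB dSL (bms dBZ5) dBZ5 = true := by decide +kernel

theorem vB6 : ckB dSL (bms dBZ6) dBZ6 = true := by decide +kernel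

theorem vB7 : ckB dSL (bms dBZ7) dBZ7 = true := by decide +kernel

theorem vB8 : ckB dSL (bms dBZ8) dBZ8 = true := by decide +kernel

theorem vB9 : ckB dSL (bms dBZ9) dBZ9 = true := by decide +kernel

theorem vB10 : ckB dSL (bms dBZ10) dBZ10 = true := by decide +kernel

def BZs : List (List BF) := [dBZ0, dBZ1, dBZ2, dBZ3, dBZ4, dBZ5, dBZ6, dBZ7, dBZ8, dBZ9, dBZ10]

def Is : List ℕ := [2147221504, 17590038560768, 144097595889811456, 1180447505529335447552, 9670225965296315986345984, 79218491107707420560146300928, 648957879154339189228718497202176, 5316262946032346638161661929080225792, 43550826053896983659820334523025209688064, 356768367033524090141248180412622517764620288, 2922646462738629346437105093940203665527769399296]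

def BZ (j : ℕ) : List BF := BZs.getD j []

def own (j : ℕ) : ℕ := Is.getD j 0

theorem own1 : ∀ j < 11, allL (fun m => cond (Nat.beq (Nat.land m (own j)) 0) false true) (bms (BZ j)) = true := by
  decide +kernel

theorem own2 : ∀ i < 11, ∀ j < 11, i ≠ j → allL (fun m => Nat.beq (Nat.land m (own i)) 0) (bms (BZ j)) = true := by
  decide +kernel

theorem zlt : ∀ j < 11, ∀ b ∈ BZ j, b.z < 512 := by
  decide +kernel

theorem hck : ∀ j < 11, ckB dSL (bms (BZ j)) (BZ j) = true := by
  intro j hj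
  interval_cases j
  · exact vB0
  · exact vB1
  · exact vB2
  · exact vB3
  · exact vB4
  · exact vB5
  · exact vB6
  · exact vB7
  · exact vB8
  · exact vB9
  · exact vB10

theorem hsub : ∀ j < 11, ∀ b ∈ BZ j, b.m ∈ dSL := by
  intro j hj b hb
  have hm : b.m ∈ bms (BZ j) := (mem_bms _ _).2 ⟨b, hb, rfl⟩
  rw [mem_SL]
  interval_cases j
  · have h := (memL_iff _ _).1 ((allL_iff _ _).1 kL0 b.m hm)
    tauto
  · have h := (memL_iff _ _).1 ((allL_iff _ _).1 kL1 b.m hm)
    tauto
  · have h := (memL_iff _ _).1 ((allL_iff _ _).1 kL2 b.m hm)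
    tauto
  · have h := (memL_iff _ _).1 ((allL_iff _ _).1 kL3 b.m hm)
    tauto
  · have h := (memL_iff _ _).1 ((allL_iff _ _).1 kL4 b.m hm)
    tauto
  · have h := (memL_iff _ _).1 ((allL_iff _ _).1 kL5 b.m hm)
    tauto
  · have h := (memL_iff _ _).1 ((allL_iff _ _).1 kL6 b.m hm)
    tauto
  · have h := (memL_iff _ _).1 ((allL_iff _ _).1 kL7 b.m hm)
    tauto
  · have h := (memL_iff _ _).1 ((allL_iff _ _).1 kL8 b.m hm)
    tauto
  · have h := (memL_iff _ _).1 ((allL_iff _ _).1 kL9 b.m hm)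
    tauto
  · have h := (memL_iff _ _).1 ((allL_iff _ _).1 kL10 b.m hm)
    tauto

theorem notShell : ¬ ∃ L : List (Finset (Fin 161)), L.Nodup ∧ L.toFinset = toFam 161 dSL ∧
      ∀ i j : Fin L.length, i < j → ∃ k : Fin L.length, k < j ∧
        L.get i ∩ L.get j ⊆ L.get k ∩ L.get j ∧ (L.get j \ L.get k).card = 1 := by
  refine nonshell dSL (fun m hm => (goodS.1 m hm).2) 11 9 BZ hck hsub ?_ ?_ ?_ (by norm_num)
  · intro j hj
    interval_cases j
    · exact List.exists_mem_of_ne_nil _ (by simp [BZ, BZs, dBZ0])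
    · exact List.exists_mem_of_ne_nil _ (by simp [BZ, BZs, dBZ1])
    · exact List.exists_mem_of_ne_nil _ (by simp [BZ, BZs, dBZ2])
    · exact List.exists_mem_of_ne_nil _ (by simp [BZ, BZs, dBZ3])
    · exact List.exists_mem_of_ne_nil _ (by simp [BZ, BZs, dBZ4])
    · exact List.exists_mem_of_ne_nil _ (by simp [BZ, BZs, dBZ5])
    · exact List.exists_mem_of_ne_nil _ (by simp [BZ, BZs, dBZ6])
    · exact List.exists_mem_of_ne_nil _ (by simp [BZ, BZs, dBZ7])
    · exact List.exists_mem_of_ne_nil _ (by simp [BZ, BZs, dBZ8])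
    · exact List.exists_mem_of_ne_nil _ (by simp [BZ, BZs, dBZ9])
    · exact List.exists_mem_of_ne_nil _ (by simp [BZ, BZs, dBZ10])
  · intro i j hi hj hij b hb c hc he
    have h1 := (allL_iff _ _).1 (own1 i hi) b.m ((mem_bms _ _).2 ⟨b, hb, rfl⟩)
    have h2 := (allL_iff _ _).1 (own2 i hi j hj hij) c.m ((mem_bms _ _).2 ⟨c, hc, rfl⟩)
    rw [he, h2] at h1
    simp at h1
  · intro j hj b hb v hv
    have h1 := zlt j hj b hb
    rw [hv] at h1
    by_contra hcon
    have h2 : 2 ^ 9 ≤ 2 ^ v := Nat.pow_le_pow_right (by norm_num) (not_lt.1 hcon)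
    omega

end Pool.Agent.V11126.Cons
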