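import Pool.Agent.V11126.Cons.Real

/-!
The boundary of the 4-simplex is a 3-sphere.
-/

namespace Pool.Agent.V11126.Cons

open Finset

/-- the standard full-dimensional simplex in Euclidean 4-space -/
def tet : Set (EuclideanSpace ℝ (Fin 4)) := {z | (∀ i, 0 ≤ z i) ∧ z 0 + z 1 + z 2 + z 3 ≤ 1}

lemma tet_closed : IsClosed tet := by
  have h1 : tet = (⋂ i : Fin 4, {z : EuclideanSpace ℝ (Fin 4) | 0 ≤ z i}) ∩
      {z | z 0 + z 1 + z 2 + z 3 ≤ 1} := by
    apply Set.ext
    intro z
    simp [tet]
  rw [h1]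
  apply IsClosed.inter
  · apply isClosed_iInter
    intro i
    exact isClosed_le continuous_const (by fun_prop)
  · exact isClosed_le (by fun_prop) continuous_const

lemma tet_convex : Convex ℝ tet := by
  rintro x ⟨hx0, hx1⟩ y ⟨hy0, hy1⟩ a b ha hb hab
  refine ⟨?_, ?_⟩
  · intro i
    simp only [PiLp.add_apply, PiLp.smul_apply, smul_eq_mul]
    exact add_nonneg (mul_nonneg ha (hx0 i)) (mul_nonneg hb (hy0 i))
  · simp only [PiLp.add_apply, PiLp.smul_apply, smul_eq_mul]
    nlinarith

lemma tet_bounded : Bornology.IsBounded tet := by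
  rw [Metric.isBounded_iff_subset_closedBall 0]
  refine ⟨1, ?_⟩
  rintro z ⟨hz0, hz1⟩
  rw [mem_closedBall_zero_iff, EuclideanSpace.norm_eq, Real.sqrt_le_one, Fin.sum_univ_four]
  have h0 := hz0 0
  have h1 := hz0 1
  have h2 := hz0 2
  have h3 := hz0 3
  simp only [Real.norm_eq_abs, sq_abs]
  nlinarith [mul_nonneg h0 h1, mul_nonneg h0 h2, mul_nonneg h0 h3, mul_nonneg h1 h2,
    mul_nonneg h1 h3, mul_nonneg h2 h3]

def tetI : Set (EuclideanSpace ℝ (Fin 4)) := {z | (∀ i, 0 < z i) ∧ z 0 + z 1 + z 2 + z 3 < 1}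

lemma tetI_open : IsOpen tetI := by
  have h1 : tetI = (⋂ i : Fin 4, {z : EuclideanSpace ℝ (Fin 4) | 0 < z i}) ∩
      {z | z 0 + z 1 + z 2 + z 3 < 1} := by
    apply Set.ext
    intro z
    simp [tetI]
  rw [h1]
  apply IsOpen.inter
  · apply isOpen_iInter_of_finite
    intro i
    exact isOpen_lt continuous_const (by fun_prop)
  · exact isOpen_lt (by fun_prop) continuous_const

lemma tetI_sub : tetI ⊆ tet := fun _ h => ⟨fun i => (h.1 i).le, h.2.le⟩

lemma tet_interior : interior tet = tetI := by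
  apply Set.Subset.antisymm
  · intro z hz
    rw [mem_interior_iff_mem_nhds, Metric.mem_nhds_iff] at hz
    obtain ⟨ε, hε, hb⟩ := hz
    have key : ∀ (i : Fin 4) (c : ℝ), |c| = ε / 2 → z + c • EuclideanSpace.single i (1 : ℝ) ∈ tet := by
      intro i c hc
      apply hb
      rw [Metric.mem_ball, dist_eq_norm]
      have : z + c • EuclideanSpace.single i (1 : ℝ) - z = c • EuclideanSpace.single i (1 : ℝ) := by
        abel
      rw [this, norm_smul, EuclideanSpace.norm_single, Real.norm_eq_abs, hc]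
      simp only [norm_one, mul_one]
      linarith
    refine ⟨?_, ?_⟩
    · intro i
      have h1 := (key i (-(ε / 2)) (by rw [abs_neg, abs_of_pos]; linarith)).1 i
      simp only [PiLp.add_apply, PiLp.smul_apply, smul_eq_mul, EuclideanSpace.single_apply, if_true] at h1
      linarith
    · have h1 := (key 0 (ε / 2) (by rw [abs_of_pos]; linarith)).2
      simp only [PiLp.add_apply, PiLp.smul_apply, smul_eq_mul, EuclideanSpace.single_apply] at h1
      have e1 : ((1 : Fin 4) = 0) = False := by simp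
      have e2 : ((2 : Fin 4) = 0) = False := by simp
      have e3 : ((3 : Fin 4) = 0) = False := by simp
      simp only [e1, e2, e3, if_true, if_false] at h1
      linarith
  · exact interior_maximal tetI_sub tetI_open

/-- the boundary of the simplex -/
def tetB : Set (EuclideanSpace ℝ (Fin 4)) := {z | (∀ i, 0 ≤ z i) ∧ z 0 + z 1 + z 2 + z 3 ≤ 1 ∧
  ((∃ i, z i = 0) ∨ z 0 + z 1 + z 2 + z 3 = 1)}

lemma tet_frontier : frontier tet = tetB := by
  rw [tet_closed.frontier_eq, tet_interior]
  ext z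
  constructor
  · rintro ⟨⟨h1, h2⟩, h3⟩
    refine ⟨h1, h2, ?_⟩
    by_contra hcon
    push Not at hcon
    exact h3 ⟨fun i => lt_of_le_of_ne (h1 i) (Ne.symm (hcon.1 i)), lt_of_le_of_ne h2 hcon.2⟩
  · rintro ⟨h1, h2, h3⟩
    refine ⟨⟨h1, h2⟩, ?_⟩
    rintro ⟨h4, h5⟩
    rcases h3 with ⟨i, hi⟩ | h3
    · have := h4 i
      rw [hi] at this
      exact absurd this (lt_irrefl _)
    · rw [h3] at h5
      exact absurd h5 (lt_irrefl _)

lemma tetB_sphere : Nonempty (tetB ≃ₜ Metric.sphere (0 : EuclideanSpace ℝ (Fin 4)) 1) := by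
  have hne : (interior tet).Nonempty := by
    rw [tet_interior]
    refine ⟨WithLp.toLp 2 (fun _ => 1 / 5), ?_, ?_⟩
    · intro i
      show (0 : ℝ) < 1 / 5
      norm_num
    · show (1 / 5 : ℝ) + 1 / 5 + 1 / 5 + 1 / 5 < 1
      norm_num
  obtain ⟨h, _, _, h2⟩ := exists_homeomorph_image_interior_closure_frontier_eq_unitBall
    tet_convex hne tet_bounded
  rw [tet_frontier] at h2
  exact ⟨(h.image tetB).trans (Homeomorph.setCongr h2)⟩

lemma tbf {m v : ℕ} {gs : List ℕ} (hm : m = maskOf gs) (hv : v ∉ gs) : m.testBit v = false := by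
  cases hb : m.testBit v
  · rfl
  · rw [hm, testBit_maskOf] at hb
    exact absurd hb hv

lemma tbf' {m v : ℕ} {gs : List ℕ} (hm : m = maskOf gs) (hv : m.testBit v = false) : v ∉ gs := by
  intro h
  rw [← testBit_maskOf, ← hm, hv] at h
  exact absurd h (by simp)

/-- the boundary of the simplex with vertices `b0, ..., b4` -/
theorem simplex_sphere (K : List ℕ) (b0 b1 b2 b3 b4 : ℕ)
    (hK : K = [maskOf [b1, b2, b3, b4], maskOf [b0, b2, b3, b4], maskOf [b0, b1, b3, b4],
      maskOf [b0, b1, b2, b4], maskOf [b0, b1, b2, b3]])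
    (h01 : b0 < b1) (h12 : b1 < b2) (h23 : b2 < b3) (h34 : b3 < b4) (hlt : b4 < 256) :
    Nonempty (Rm K ≃ₜ Metric.sphere (0 : EuclideanSpace ℝ (Fin 4)) 1) := by
  have hsum : ∀ y : ℕ → ℝ, (∀ v, v ≠ b0 → v ≠ b1 → v ≠ b2 → v ≠ b3 → v ≠ b4 → y v = 0) →
      ∑ v ∈ Finset.range 256, y v = y b0 + y b1 + y b2 + y b3 + y b4 := by
    intro y hy
    have h1 : ∑ v ∈ ({b0, b1, b2, b3, b4} : Finset ℕ), y v = ∑ v ∈ Finset.range 256, y v := by
      apply Finset.sum_subset
      · intro v hv
        simp only [Finset.mem_insert, Finset.mem_singleton] at hv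
        rw [Finset.mem_range]
        omega
      · intro v _ hv
        simp only [Finset.mem_insert, Finset.mem_singleton, not_or] at hv
        exact hy v hv.1 hv.2.1 hv.2.2.1 hv.2.2.2.1 hv.2.2.2.2
    rw [← h1, Finset.sum_insert (by simp only [Finset.mem_insert, Finset.mem_singleton]; omega),
      Finset.sum_insert (by simp only [Finset.mem_insert, Finset.mem_singleton]; omega),
      Finset.sum_insert (by simp only [Finset.mem_insert, Finset.mem_singleton]; omega),
      Finset.sum_insert (by simp only [Finset.mem_singleton]; omega), Finset.sum_singleton]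
    ring
  have hsupp : ∀ x ∈ Rm K, (∀ v, 0 ≤ x v) ∧
      (∀ v, v ≠ b0 → v ≠ b1 → v ≠ b2 → v ≠ b3 → v ≠ b4 → x v = 0) ∧
      x b0 + x b1 + x b2 + x b3 + x b4 = 1 ∧
      (x b0 = 0 ∨ x b1 = 0 ∨ x b2 = 0 ∨ x b3 = 0 ∨ x b4 = 0) := by
    rintro x ⟨hx0, ⟨m, hm, hm0⟩, hx1⟩
    rw [hK] at hm
    simp only [List.mem_cons, List.not_mem_nil, or_false] at hm
    have h1 : ∀ v, v ≠ b0 → v ≠ b1 → v ≠ b2 → v ≠ b3 → v ≠ b4 → x v = 0 := by
      intro v g0 g1 g2 g3 g4
      apply hm0
      rcases hm with hm | hm | hm | hm | hm <;>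
        exact tbf hm (by simp [g0, g1, g2, g3, g4])
    refine ⟨hx0, h1, by rw [← hsum x h1, hx1], ?_⟩
    rcases hm with hm | hm | hm | hm | hm
    · exact Or.inl (hm0 _ (tbf hm (by simp only [List.mem_cons, List.not_mem_nil, or_false]; omega)))
    · exact Or.inr (Or.inl (hm0 _ (tbf hm (by simp only [List.mem_cons, List.not_mem_nil, or_false]; omega))))
    · exact Or.inr (Or.inr (Or.inl (hm0 _ (tbf hm
        (by simp only [List.mem_cons, List.not_mem_nil, or_false]; omega)))))
    · exact Or.inr (Or.inr (Or.inr (Or.inl (hm0 _ (tbf hm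
        (by simp only [List.mem_cons, List.not_mem_nil, or_false]; omega))))))
    · exact Or.inr (Or.inr (Or.inr (Or.inr (hm0 _ (tbf hm
        (by simp only [List.mem_cons, List.not_mem_nil, or_false]; omega))))))
  have hmem : ∀ x : ℕ → ℝ, (∀ v, 0 ≤ x v) →
      (∀ v, v ≠ b0 → v ≠ b1 → v ≠ b2 → v ≠ b3 → v ≠ b4 → x v = 0) →
      x b0 + x b1 + x b2 + x b3 + x b4 = 1 →
      (x b0 = 0 ∨ x b1 = 0 ∨ x b2 = 0 ∨ x b3 = 0 ∨ x b4 = 0) → x ∈ Rm K := by
    intro x hx0 h1 h2 h3
    refine ⟨hx0, ?_, by rw [hsum x h1, h2]⟩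
    have key : ∀ m gs, m = maskOf gs → (∀ v, v ∉ gs → x v = 0) → ∀ v, m.testBit v = false → x v = 0 :=
      fun m gs hm hg v hv => hg v (tbf' hm hv)
    have hz : ∀ v, x v = 0 ∨ v = b0 ∨ v = b1 ∨ v = b2 ∨ v = b3 ∨ v = b4 := by
      intro v
      by_contra hcon
      push Not at hcon
      exact hcon.1 (h1 v hcon.2.1 hcon.2.2.1 hcon.2.2.2.1 hcon.2.2.2.2.1 hcon.2.2.2.2.2)
    have fin : ∀ (c : ℕ) (gs : List ℕ), x c = 0 → (∀ v, v = b0 ∨ v = b1 ∨ v = b2 ∨ v = b3 ∨ v = b4 →
        v = c ∨ v ∈ gs) → ∀ v, v ∉ gs → x v = 0 := by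
      intro c gs hc hgs v hv
      rcases hz v with h | h
      · exact h
      · rcases hgs v h with h | h
        · rw [h]; exact hc
        · exact absurd h hv
    rcases h3 with h | h | h | h | h
    · refine ⟨maskOf [b1, b2, b3, b4], by rw [hK]; simp, key _ _ rfl (fin b0 _ h ?_)⟩
      intro v hv; simp only [List.mem_cons, List.not_mem_nil, or_false]; tauto
    · refine ⟨maskOf [b0, b2, b3, b4], by rw [hK]; simp, key _ _ rfl (fin b1 _ h ?_)⟩
      intro v hv; simp only [List.mem_cons, List.not_mem_nil, or_false]; tauto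
    · refine ⟨maskOf [b0, b1, b3, b4], by rw [hK]; simp, key _ _ rfl (fin b2 _ h ?_)⟩
      intro v hv; simp only [List.mem_cons, List.not_mem_nil, or_false]; tauto
    · refine ⟨maskOf [b0, b1, b2, b4], by rw [hK]; simp, key _ _ rfl (fin b3 _ h ?_)⟩
      intro v hv; simp only [List.mem_cons, List.not_mem_nil, or_false]; tauto
    · refine ⟨maskOf [b0, b1, b2, b3], by rw [hK]; simp, key _ _ rfl (fin b4 _ h ?_)⟩
      intro v hv; simp only [List.mem_cons, List.not_mem_nil, or_false]; tauto
  let inv : EuclideanSpace ℝ (Fin 4) → ℕ → ℝ := fun z v =>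
    if v = b4 then 1 - (z 0 + z 1 + z 2 + z 3) else if v = b0 then z 0 else if v = b1 then z 1
      else if v = b2 then z 2 else if v = b3 then z 3 else 0
  have i4 : ∀ z, inv z b4 = 1 - (z 0 + z 1 + z 2 + z 3) := fun z => by simp [inv]
  have i0 : ∀ z, inv z b0 = z 0 := fun z => by
    have : b0 ≠ b4 := by omega
    simp [inv, this]
  have i1 : ∀ z, inv z b1 = z 1 := fun z => by
    have g1 : b1 ≠ b4 := by omega
    have g2 : b1 ≠ b0 := by omega
    simp [inv, g1, g2]
  have i2 : ∀ z, inv z b2 = z 2 := fun z => by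
    have g1 : b2 ≠ b4 := by omega
    have g2 : b2 ≠ b0 := by omega
    have g3 : b2 ≠ b1 := by omega
    simp [inv, g1, g2, g3]
  have i3 : ∀ z, inv z b3 = z 3 := fun z => by
    have g1 : b3 ≠ b4 := by omega
    have g2 : b3 ≠ b0 := by omega
    have g3 : b3 ≠ b1 := by omega
    have g4 : b3 ≠ b2 := by omega
    simp [inv, g1, g2, g3, g4]
  have i5 : ∀ z v, v ≠ b0 → v ≠ b1 → v ≠ b2 → v ≠ b3 → v ≠ b4 → inv z v = 0 :=
    fun z v g0 g1 g2 g3 g4 => by simp [inv, g0, g1, g2, g3, g4]
  let e : Rm K ≃ₜ tetB :=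
    { toFun := fun x => ⟨WithLp.toLp 2 ![x.1 b0, x.1 b1, x.1 b2, x.1 b3], by
        obtain ⟨hx0, _, hx2, hx3⟩ := hsupp x.1 x.2
        refine ⟨?_, ?_, ?_⟩
        · intro i
          fin_cases i
          · exact hx0 b0
          · exact hx0 b1
          · exact hx0 b2
          · exact hx0 b3
        · show x.1 b0 + x.1 b1 + x.1 b2 + x.1 b3 ≤ 1
          linarith [hx0 b4]
        · rcases hx3 with h | h | h | h | h
          · exact Or.inl ⟨0, h⟩
          · exact Or.inl ⟨1, h⟩
          · exact Or.inl ⟨2, h⟩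
          · exact Or.inl ⟨3, h⟩
          · right
            show x.1 b0 + x.1 b1 + x.1 b2 + x.1 b3 = 1
            linarith⟩
      invFun := fun z => ⟨inv z.1, by
        obtain ⟨hz0, hz1, hz2⟩ := z.2
        apply hmem
        · intro v
          show 0 ≤ (if v = b4 then 1 - (z.1 0 + z.1 1 + z.1 2 + z.1 3) else if v = b0 then z.1 0
            else if v = b1 then z.1 1 else if v = b2 then z.1 2 else if v = b3 then z.1 3 else 0)
          split_ifs
          · linarith
          · exact hz0 0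
          · exact hz0 1
          · exact hz0 2
          · exact hz0 3
          · exact le_rfl
        · exact i5 z.1
        · rw [i0, i1, i2, i3, i4]
          ring
        · rw [i0, i1, i2, i3, i4]
          rcases hz2 with ⟨i, hi⟩ | h
          · fin_cases i
            · exact Or.inl hi
            · exact Or.inr (Or.inl hi)
            · exact Or.inr (Or.inr (Or.inl hi))
            · exact Or.inr (Or.inr (Or.inr (Or.inl hi)))
          · exact Or.inr (Or.inr (Or.inr (Or.inr (by linarith))))⟩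
      left_inv := by
        intro x
        obtain ⟨hx0, hx1, hx2, _⟩ := hsupp x.1 x.2
        apply Subtype.ext
        funext v
        show inv (WithLp.toLp 2 ![x.1 b0, x.1 b1, x.1 b2, x.1 b3]) v = x.1 v
        by_cases g4 : v = b4
        · rw [g4, i4]
          show 1 - (x.1 b0 + x.1 b1 + x.1 b2 + x.1 b3) = x.1 b4
          linarith
        by_cases g0 : v = b0
        · rw [g0, i0]; rfl
        by_cases g1 : v = b1
        · rw [g1, i1]; rfl
        by_cases g2 : v = b2
        · rw [g2, i2]; rfl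
        by_cases g3 : v = b3
        · rw [g3, i3]; rfl
        rw [i5 _ v g0 g1 g2 g3 g4, hx1 v g0 g1 g2 g3 g4]
      right_inv := by
        intro z
        apply Subtype.ext
        show WithLp.toLp 2 ![inv z.1 b0, inv z.1 b1, inv z.1 b2, inv z.1 b3] = z.1
        rw [i0, i1, i2, i3]
        ext i
        fin_cases i <;> rfl
      continuous_toFun := by
        apply Continuous.subtype_mk
        apply (PiLp.continuous_toLp 2 _).comp
        apply continuous_pi
        intro i
        fin_cases i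
        · exact (continuous_apply b0).comp continuous_subtype_val
        · exact (continuous_apply b1).comp continuous_subtype_val
        · exact (continuous_apply b2).comp continuous_subtype_val
        · exact (continuous_apply b3).comp continuous_subtype_val
      continuous_invFun := by
        apply Continuous.subtype_mk
        apply continuous_pi
        intro v
        show Continuous fun z : tetB => (if v = b4 then 1 - (z.1 0 + z.1 1 + z.1 2 + z.1 3) else
          if v = b0 then z.1 0 else if v = b1 then z.1 1 else if v = b2 then z.1 2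
          else if v = b3 then z.1 3 else 0)
        split_ifs
        · fun_prop
        · fun_prop
        · fun_prop
        · fun_prop
        · fun_prop
        · fun_prop }
  obtain ⟨e2⟩ := tetB_sphere
  exact ⟨e.trans e2⟩

end Pool.Agent.V11126.Cons
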