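import Pool.Agent.V11126.Cons.NonSh
import Pool.Agent.V11126.Cons.Sphere

/-!
Assembly of constructible blocks.
-/

namespace Pool.Agent.V11126.Cons

open Finset

/-- a list of masks of facets of size 4 which form a constructible complex -/
def Good (n : ℕ) (A : List ℕ) : Prop :=
  (∀ m ∈ A, (toFin n m).card = 4 ∧ m < 2 ^ n) ∧ Cn 4 (toFam n A)

theorem blk_good {n : ℕ} {T B1 B2 G : List ℕ} {TQ GQ : List (List ℕ)} {m1 m2 g0 V : ℕ}
    {s1 s2 sg sc : List St}
    (c1 : ckC n 4 TQ T = true) (c2 : shR B1 s1 [m1] = true) (c3 : shR B2 s2 [m2] = true)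
    (c4 : ckC n 3 GQ G = true) (c5 : shR G sg [g0] = true) (c6 : ckGl V G B2 B1 = true)
    (c7 : shR T sc (B2 ++ B1) = true) : Good n T := by
  have h1 := ckC_spec n 4 TQ T c1
  have h4 := ckC_spec n 3 GQ G c4
  have hsub := shR_sub T sc _ c7
  have k1 : ∀ m ∈ B1, (toFin n m).card = 4 ∧ m < 2 ^ n := fun m hm => h1 m (hsub m (List.mem_append_right _ hm))
  have k2 : ∀ m ∈ B2, (toFin n m).card = 4 ∧ m < 2 ^ n := fun m hm => h1 m (hsub m (List.mem_append_left _ hm))
  have a1 : Cn 4 (toFam n B1) := sh_cn (by norm_num) B1 k1 s1 m1 c2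
  have a2 : Cn 4 (toFam n B2) := sh_cn (by norm_num) B2 k2 s2 m2 c3
  have a3 : Cn (4 - 1) (toFam n G) := sh_cn (by norm_num) G h4 sg g0 c5
  have a4 := glue_cn (n := n) (k := 4) (by norm_num) c6 (fun m hm => (k1 m hm).1) (fun m hm => (k2 m hm).1)
    (fun m hm => (h4 m hm).1) a1 a2 a3
  exact ⟨h1, shR_cn (by norm_num) T h1 sc _ c7 a4⟩

theorem good_blk {n : ℕ} {A T H : List ℕ} {HQ : List (List ℕ)} {V h0 : ℕ} {sh : List St}
    (hA : Good n A) (hT : Good n T) (c1 : ckC n 3 HQ H = true) (c2 : shR H sh [h0] = true)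
    (c3 : ckGl V H T A = true) : Good n (T ++ A) := by
  have h1 := ckC_spec n 3 HQ H c1
  refine ⟨?_, ?_⟩
  · intro m hm
    rcases List.mem_append.1 hm with hm | hm
    · exact hT.1 m hm
    · exact hA.1 m hm
  · exact glue_cn (by norm_num) c3 (fun m hm => (hA.1 m hm).1) (fun m hm => (hT.1 m hm).1)
      (fun m hm => (h1 m hm).1) hA.2 hT.2 (sh_cn (by norm_num) H h1 sh h0 c2)

theorem good_tet {n : ℕ} {A : List ℕ} (s : St) {m : ℕ} (hm : s.m = m) (hA : Good n A)
    (h : ckR A s = true) (hs : (toFin n m).card = 4 ∧ m < 2 ^ n) :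
    Good n (m :: A) := by
  subst hm
  refine ⟨?_, ckR_spec (by norm_num) h (fun m hm => (hA.1 m hm).1) hs hA.2⟩
  intro m hm
  rcases List.mem_cons.1 hm with rfl | hm
  · exact hs
  · exact hA.1 m hm

theorem good_one {n m : ℕ} (hs : (toFin n m).card = 4 ∧ m < 2 ^ n) : Good n [m] := by
  refine ⟨?_, ?_⟩
  · intro m' hm'
    rw [List.mem_singleton] at hm'
    rw [hm']; exact hs
  · rw [toFam_single]
    exact Cn.base' hs.1

end Pool.Agent.V11126.Cons
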