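import Pool.Agent.V11126.Cons.Data0

namespace Pool.Agent.V11126.Cons

theorem kA0 : ckC 161 4 dTQ0 dT0 = true := by decide +kernel
theorem kB0 : shR dB1x0 ds1x0 [1677721604] = true := by decide +kernel
theorem kC0 : shR dB2x0 ds2x0 [302514178] = true := by decide +kernel
theorem kD0 : ckC 161 3 dGQ0 dG0 = true := by decide +kernel
theorem kE0 : shR dG0 dsg0 [9437185] = true := by decide +kernel
theorem kF0 : ckGl 2147265031 dG0 dB2x0 dB1x0 = true := by decide +kernel
theorem kG0 : shR dT0 dsc0 (dB2x0 ++ dB1x0) = true := by decide +kernel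
theorem kH0 : ckC 161 3 dHQ0 dH0 = true := by decide +kernel
theorem kI0 : shR dH0 dsh0 [34818] = true := by decide +kernel
theorem kJ0 : runM dP0 dms0 dT0 = true := by decide +kernel
theorem kK0 : ckFr 57896044618658097711785492504343953926634992332820282019728792003958712084999 dtr0 dms0 = true := by decide +kernel
theorem kL0 : allL (fun m => memL m dT0) (bms dBZ0) = true := by decide +kernel

theorem goodT0 : Good 161 dT0 := blk_good kA0 kB0 kC0 kD0 kE0 kF0 kG0

end Pool.Agent.V11126.Cons
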