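import Pool.Agent.V11126.Cons.Data1

namespace Pool.Agent.V11126.Cons

theorem kA1 : ckC 161 4 dTQ1 dT1 = true := by decide +kernel
theorem kB1 : shR dB1x1 ds1x1 [13743895347264] = true := by decide +kernel
theorem kC1 : shR dB2x1 ds2x1 [2478196129793] = true := by decide +kernel
theorem kD1 : ckC 161 3 dGQ1 dG1 = true := by decide +kernel
theorem kE1 : shR dG1 dsg1 [77309411336] = true := by decide +kernel
theorem kF1 : ckGl 17590038697545 dG1 dB2x1 dB1x1 = true := by decide +kernel
theorem kG1 : shR dT1 dsc1 (dB2x1 ++ dB1x1) = true := by decide +kernel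
theorem kH1 : ckC 161 3 dHQ1 dH1 = true := by decide +kernel
theorem kI1 : shR dH1 dsh1 [135176] = true := by decide +kernel
theorem kJ1 : runM dP1 dms1 dT1 = true := by decide +kernel
theorem kK1 : ckFr 57896044618658097711785492504343953926634992332820282019728792021546603517513 dtr1 dms1 = true := by decide +kernel
theorem kL1 : allL (fun m => memL m dT1) (bms dBZ1) = true := by decide +kernel

theorem goodT1 : Good 161 dT1 := blk_good kA1 kB1 kC1 kD1 kE1 kF1 kG1

end Pool.Agent.V11126.Cons
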