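import Pool.Agent.V11126.Cons.Data10

namespace Pool.Agent.V11126.Cons

theorem kA10 : ckC 161 4 dTQ10 dT10 = true := by decide +kernel
theorem kB10 : shR dB1x10 ds1x10 [2283596308329535809693257551119192218212394598432] = true := by decide +kernel
theorem kC10 : shR dB2x10 ds2x10 [411760959345669425685315502186179346846422401040] = true := by decide +kernel
theorem kD10 : ckC 161 3 dGQ10 dG10 = true := by decide +kernel
theorem kE10 : shR dG10 dsg10 [12845229234353638929524573725045456227444719624] = true := by decide +kernel
theorem kF10 : ckGl 2922646462738629346437105093940203665527769551928 dG10 dB2x10 dB1x10 = true := by decide +kernel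
theorem kG10 : shR dT10 dsc10 (dB2x10 ++ dB1x10) = true := by decide +kernel
theorem kH10 : ckC 161 3 dHQ10 dH10 = true := by decide +kernel
theorem kI10 : shR dH10 dsh10 [147488] = true := by decide +kernel
theorem kJ10 : runM dP10 dms10 dT10 = true := by decide +kernel
theorem kK10 : ckFr 57896044618658097711785492507266600389373621679257387113668995669484334371896 dtr10 dms10 = true := by decide +kernel
theorem kL10 : allL (fun m => memL m dT10) (bms dBZ10) = true := by decide +kernel

theorem goodT10 : Good 161 dT10 := blk_good kA10 kB10 kC10 kD10 kE10 kF10 kG10

end Pool.Agent.V11126.Cons
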