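import Pool.Agent.V11126.Cons.Data2

namespace Pool.Agent.V11126.Cons

theorem kA2 : ckC 161 4 dTQ2 dT2 = true := by decide +kernel
theorem kB2 : shR dB1x2 ds1x2 [112589990684262656] = true := by decide +kernel
theorem kC2 : shR dB2x2 ds2x2 [20301382695256080] = true := by decide +kernel
theorem kD2 : ckC 161 3 dGQ2 dG2 = true := by decide +kernel
theorem kE2 : shR dG2 dsg2 [633318697598977] = true := by decide +kernel
theorem kF2 : ckGl 144097595889903889 dG2 dB2x2 dB1x2 = true := by decide +kernel
theorem kG2 : shR dT2 dsc2 (dB2x2 ++ dB1x2) = true := by decide +kernel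
theorem kH2 : ckC 161 3 dHQ2 dH2 = true := by decide +kernel
theorem kI2 : shR dH2 dsh2 [24832] = true := by decide +kernel
theorem kJ2 : runM dP2 dms2 dT2 = true := by decide +kernel
theorem kK2 : ckFr 57896044618658097711785492504343953926634992332820282019728936101552454723857 dtr2 dms2 = true := by decide +kernel
theorem kL2 : allL (fun m => memL m dT2) (bms dBZ2) = true := by decide +kernel

theorem goodT2 : Good 161 dT2 := blk_good kA2 kB2 kC2 kD2 kE2 kF2 kG2

end Pool.Agent.V11126.Cons
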