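import Pool.Agent.V11126.Cons.Data3

namespace Pool.Agent.V11126.Cons

theorem kA3 : ckC 161 4 dTQ3 dT3 = true := by decide +kernel
theorem kB3 : shR dB1x3 ds1x3 [922337203685477580928] = true := by decide +kernel
theorem kC3 : shR dB2x3 ds2x3 [166308927039537676320] = true := by decide +kernel
theorem kD3 : ckC 161 3 dGQ3 dG3 = true := by decide +kernel
theorem kE3 : shR dG3 dsg3 [5188146770730811393] = true := by decide +kernel
theorem kF3 : ckGl 1180447505529335653537 dG3 dB2x3 dB1x3 = true := by decide +kernel
theorem kG3 : shR dT3 dsc3 (dB2x3 ++ dB1x3) = true := by decide +kernel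
theorem kH3 : ckC 161 3 dHQ3 dH3 = true := by decide +kernel
theorem kI3 : shR dH3 dsh3 [196609] = true := by decide +kernel
theorem kJ3 : runM dP3 dms3 dT3 = true := by decide +kernel
theorem kK3 : ckFr 57896044618658097711785492504343953926634992332820282020909239509485900473505 dtr3 dms3 = true := by decide +kernel
theorem kL3 : allL (fun m => memL m dT3) (bms dBZ3) = true := by decide +kernel

theorem goodT3 : Good 161 dT3 := blk_good kA3 kB3 kC3 kD3 kE3 kF3 kG3

end Pool.Agent.V11126.Cons
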