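import Pool.Agent.V11126.Cons.Data4

namespace Pool.Agent.V11126.Cons

theorem kA4 : ckC 161 4 dTQ4 dT4 = true := by decide +kernel
theorem kB4 : shR dB1x4 ds1x4 [7555786372591432341913856] = true := by decide +kernel
theorem kC4 : shR dB2x4 ds2x4 [1362402730307892644151304] = true := by decide +kernel
theorem kD4 : ckC 161 3 dGQ4 dG4 = true := by decide +kernel
theorem kE4 : shR dG4 dsg4 [42501298345826806923266] = true := by decide +kernel
theorem kF4 : ckGl 9670225965296315986369802 dG4 dB2x4 dB1x4 = true := by decide +kernel
theorem kG4 : shR dT4 dsc4 (dB2x4 ++ dB1x4) = true := by decide +kernel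
theorem kH4 : ckC 161 3 dHQ4 dH4 = true := by decide +kernel
theorem kI4 : shR dH4 dsh4 [3074] = true := by decide +kernel
theorem kJ4 : runM dP4 dms4 dT4 = true := by decide +kernel
theorem kK4 : ckFr 57896044618658097711785492504343953926634992332820291689954757300272551189770 dtr4 dms4 = true := by decide +kernel
theorem kL4 : allL (fun m => memL m dT4) (bms dBZ4) = true := by decide +kernel

theorem goodT4 : Good 161 dT4 := blk_good kA4 kB4 kC4 kD4 kE4 kF4 kG4

end Pool.Agent.V11126.Cons
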