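import Pool.Agent.V11126.Cons.Data5

namespace Pool.Agent.V11126.Cons

theorem kA5 : ckC 161 4 dTQ5 dT5 = true := by decide +kernel
theorem kB5 : shR dB1x5 ds1x5 [61897001964269013744956211328] = true := by decide +kernel
theorem kC5 : shR dB2x5 ds2x5 [11160803166682256540887416848] = true := by decide +kernel
theorem kD5 : ckC 161 3 dGQ5 dG5 = true := by decide +kernel
theorem kE5 : shR dG5 dsg5 [348170636049013202315378690] = true := by decide +kernel
theorem kF5 : ckGl 79218491107707420560146388114 dG5 dB2x5 dB1x5 = true := by decide +kernel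
theorem kG5 : shR dT5 dsc5 (dB2x5 ++ dB1x5) = true := by decide +kernel
theorem kH5 : ckC 161 3 dHQ5 dH5 = true := by decide +kernel
theorem kI5 : shR dH5 dsh5 [20496] = true := by decide +kernel
theorem kJ5 : runM dP5 dms5 dT5 = true := by decide +kernel
theorem kK5 : ckFr 57896044618658097711785492504343953926634992332899500510836499424516711208082 dtr5 dms5 = true := by decide +kernel
theorem kL5 : allL (fun m => memL m dT5) (bms dBZ5) = true := by decide +kernel

theorem goodT5 : Good 161 dT5 := blk_good kA5 kB5 kC5 kD5 kE5 kF5 kG5

end Pool.Agent.V11126.Cons
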