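import Pool.Agent.V11126.Cons.Data6

namespace Pool.Agent.V11126.Cons

theorem kA6 : ckC 161 4 dTQ6 dT6 = true := by decide +kernel
theorem kB6 : shR dB1x6 ds1x6 [507060240091291760598681282150464] = true := by decide +kernel
theorem kC6 : shR dB2x6 ds2x6 [91429299541461045582949718687776] = true := by decide +kernel
theorem kD6 : ckC 161 3 dGQ6 dG6 = true := by decide +kernel
theorem kE6 : shR dG6 dsg6 [2852213850513516153367582212098] = true := by decide +kernel
theorem kF6 : ckGl 648957879154339189228718497432162 dG6 dB2x6 dB1x6 = true := by decide +kernel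
theorem kG6 : shR dT6 dsc6 (dB2x6 ++ dB1x6) = true := by decide +kernel
theorem kH6 : ckC 161 3 dHQ6 dH6 = true := by decide +kernel
theorem kI6 : shR dH6 dsh6 [33344] = true := by decide +kernel
theorem kJ6 : runM dP6 dms6 dT6 = true := by decide +kernel
theorem kK6 : ckFr 57896044618658097711785492504343953926634992981778161174067981232675062252130 dtr6 dms6 = true := by decide +kernel
theorem kL6 : allL (fun m => memL m dT6) (bms dBZ6) = true := by decide +kernel

theorem goodT6 : Good 161 dT6 := blk_good kA6 kB6 kC6 kD6 kE6 kF6 kG6

end Pool.Agent.V11126.Cons
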