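import Pool.Agent.V11126.Cons.Data7

namespace Pool.Agent.V11126.Cons

theorem kA7 : ckC 161 4 dTQ7 dT7 = true := by decide +kernel
theorem kB7 : shR dB1x7 ds1x7 [4153837486827862102824397063376076928] = true := by decide +kernel
theorem kC7 : shR dB2x7 ds2x7 [748988821843648885415524095489998856] = true := by decide +kernel
theorem kD7 : ckC 161 3 dGQ7 dG7 = true := by decide +kernel
theorem kE7 : shR dG7 dsg7 [23365335863406724328387233481490436] = true := by decide +kernel
theorem kF7 : ckGl 5316262946032346638161661929080239756 dG7 dB2x7 dB1x7 = true := by decide +kernel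
theorem kG7 : shR dT7 dsc7 (dB2x7 ++ dB1x7) = true := by decide +kernel
theorem kH7 : ckC 161 3 dHQ7 dH7 = true := by decide +kernel
theorem kI7 : shR dH7 dsh7 [1544] = true := by decide +kernel
theorem kJ7 : runM dP7 dms7 dT7 = true := by decide +kernel
theorem kK7 : ckFr 57896044618658097711785492504343953926640308595766314366366953665885645059724 dtr7 dms7 = true := by decide +kernel
theorem kL7 : allL (fun m => memL m dT7) (bms dBZ7) = true := by decide +kernel

theorem goodT7 : Good 161 dT7 := blk_good kA7 kB7 kC7 kD7 kE7 kF7 kG7

end Pool.Agent.V11126.Cons
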