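import Pool.Agent.V11126.Cons.Data8

namespace Pool.Agent.V11126.Cons

theorem kA8 : ckC 161 4 dTQ8 dT8 = true := by decide +kernel
theorem kB8 : shR dB1x8 ds1x8 [34028236692093846346337460743176821145664] = true := by decide +kernel
theorem kC8 : shR dB2x8 ds2x8 [6135716428543171669323973390254070562832] = true := by decide +kernel
theorem kD8 : ckC 161 3 dGQ8 dG8 = true := by decide +kernel
theorem kE8 : shR dG8 dsg8 [191408831393027885698148216680369618948] = true := by decide +kernel
theorem kF8 : ckGl 43550826053896983659820334523025209864276 dG8 dB2x8 dB1x8 = true := by decide +kernel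
theorem kG8 : shR dT8 dsc8 (dB2x8 ++ dB1x8) = true := by decide +kernel
theorem kH8 : ckC 161 3 dHQ8 dH8 = true := by decide +kernel
theorem kI8 : shR dH8 dsh8 [36928] = true := by decide +kernel
theorem kJ8 : runM dP8 dms8 dT8 = true := by decide +kernel
theorem kK8 : ckFr 57896044618658097711785492504343953970185818386717265679549126526981774684244 dtr8 dms8 = true := by decide +kernel
theorem kL8 : allL (fun m => memL m dT8) (bms dBZ8) = true := by decide +kernel

theorem goodT8 : Good 161 dT8 := blk_good kA8 kB8 kC8 kD8 kE8 kF8 kG8

end Pool.Agent.V11126.Cons
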