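import Pool.Agent.V11126.Cons.Data9

namespace Pool.Agent.V11126.Cons

theorem kA9 : ckC 161 4 dTQ9 dT9 = true := by decide +kernel
theorem kB9 : shR dB1x9 ds1x9 [278759314981632789269196478408104518824755456] = true := by decide +kernel
theorem kC9 : shR dB2x9 ds2x9 [50263788982625662315101990012961346050588704] = true := by decide +kernel
theorem kD9 : ckC 161 3 dGQ9 dG9 = true := by decide +kernel
theorem kE9 : shR dG9 dsg9 [1568021146771684439639230191045587918389252] = true := by decide +kernel
theorem kF9 : ckGl 356768367033524090141248180412622517764808996 dG9 dB2x9 dB1x9 = true := by decide +kernel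
theorem kG9 : shR dT9 dsc9 (dB2x9 ++ dB1x9) = true := by decide +kernel
theorem kH9 : ckC 161 3 dHQ9 dH9 = true := by decide +kernel
theorem kI9 : shR dH9 dsh9 [49408] = true := by decide +kernel
theorem kJ9 : runM dP9 dms9 dT9 = true := by decide +kernel
theorem kK9 : ckFr 57896044618658097711785492504344310695002025856910423267909204626474329628964 dtr9 dms9 = true := by decide +kernel
theorem kL9 : allL (fun m => memL m dT9) (bms dBZ9) = true := by decide +kernel

theorem goodT9 : Good 161 dT9 := blk_good kA9 kB9 kC9 kD9 kE9 kF9 kG9

end Pool.Agent.V11126.Cons
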