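import Pool.Agent.V11126.Cons.Real

/-!
Constructible complexes: the elementary steps, and Boolean checks of constructibility certificates.
-/

namespace Pool.Agent.V11126.Cons

open Finset

variable {α : Type} [DecidableEq α]

/-- constructibility of the complex with facets `F` (all of size `k`), stated as the smallest
predicate closed under the two rules -/
def Cn (k : ℕ) (F : Finset (Finset α)) : Prop :=
  ∀ P : ℕ → Finset (Finset α) → Prop,
    (∀ σ : Finset α, P σ.card {σ}) →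
    (∀ (k : ℕ) (F₁ F₂ G : Finset (Finset α)), 1 ≤ k →
      (∀ σ ∈ F₁, σ.card = k) → (∀ σ ∈ F₂, σ.card = k) → P k F₁ → P k F₂ →
      (∀ γ ∈ G, γ.card = k - 1) →
      (∀ ρ : Finset α, (∃ γ ∈ G, ρ ⊆ γ) ↔
        (∃ σ ∈ F₁, ∃ τ ∈ F₂, ρ ⊆ σ ∧ ρ ⊆ τ)) →
      P (k - 1) G → P k (F₁ ∪ F₂)) →
    P k F

lemma Cn.base (σ : Finset α) : Cn σ.card {σ} := fun _ h _ => h σ

lemma Cn.base' {k : ℕ} {σ : Finset α} (h : σ.card = k) : Cn k {σ} := by
  subst h; exact Cn.base σ

lemma Cn.step {k : ℕ} {F₁ F₂ G : Finset (Finset α)} (hk : 1 ≤ k)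
    (h1 : ∀ σ ∈ F₁, σ.card = k) (h2 : ∀ σ ∈ F₂, σ.card = k) (c1 : Cn k F₁) (c2 : Cn k F₂)
    (h3 : ∀ γ ∈ G, γ.card = k - 1)
    (h4 : ∀ ρ : Finset α, (∃ γ ∈ G, ρ ⊆ γ) ↔ (∃ σ ∈ F₁, ∃ τ ∈ F₂, ρ ⊆ σ ∧ ρ ⊆ τ))
    (c3 : Cn (k - 1) G) : Cn k (F₁ ∪ F₂) := by
  intro P hb hs
  exact hs k F₁ F₂ G hk h1 h2 (c1 P hb hs) (c2 P hb hs) h3 h4 (c3 P hb hs)

/-- a nonempty set of facets of the boundary of a simplex is constructible -/
lemma Cn.bdry (R : Finset α) : ∀ σ : Finset α, R.Nonempty → R ⊆ σ →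
    Cn (σ.card - 1) (R.image fun v => σ.erase v) := by
  induction R using Finset.induction_on with
  | empty => intro σ h; exact absurd h (by simp)
  | insert v R' hv ih =>
    intro σ _ hsub
    have hvσ : v ∈ σ := hsub (Finset.mem_insert_self v R')
    have hR' : R' ⊆ σ := fun u hu => hsub (Finset.mem_insert_of_mem hu)
    have hcv : (σ.erase v).card = σ.card - 1 := Finset.card_erase_of_mem hvσ
    rcases R'.eq_empty_or_nonempty with he | hne
    · subst he
      rw [show (insert v (∅ : Finset α)) = {v} from rfl, Finset.image_singleton]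
      exact Cn.base' hcv
    · have hsub' : R' ⊆ σ.erase v := by
        intro u hu
        rw [Finset.mem_erase]
        exact ⟨fun e => hv (e ▸ hu), hR' hu⟩
      have c1 := ih σ hne hR'
      have c3 := ih (σ.erase v) hne hsub'
      have hc2 : 2 ≤ σ.card := by
        obtain ⟨u, hu⟩ := hne
        have h1 : ({v, u} : Finset α) ⊆ σ := by
          intro x hx
          rw [Finset.mem_insert, Finset.mem_singleton] at hx
          rcases hx with rfl | rfl
          · exact hvσ
          · exact hR' hu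
        have h2 : ({v, u} : Finset α).card = 2 := by
          rw [Finset.card_pair]
          exact fun e => hv (e ▸ hu)
        rw [← h2]
        exact Finset.card_le_card h1
      rw [Finset.image_insert, Finset.insert_eq, Finset.union_comm]
      rw [hcv] at c3
      refine Cn.step (G := R'.image fun u => (σ.erase v).erase u) (by omega) ?_ ?_ c1 (Cn.base' hcv) ?_ ?_ c3
      · intro τ hτ
        obtain ⟨u, hu, rfl⟩ := Finset.mem_image.1 hτ
        exact Finset.card_erase_of_mem (hR' hu)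
      · intro τ hτ
        rw [Finset.mem_singleton] at hτ
        rw [hτ, hcv]
      · intro τ hτ
        obtain ⟨u, hu, rfl⟩ := Finset.mem_image.1 hτ
        rw [Finset.card_erase_of_mem (hsub' hu), hcv]
      · intro ρ
        constructor
        · rintro ⟨γ, hγ, hρ⟩
          obtain ⟨u, hu, rfl⟩ := Finset.mem_image.1 hγ
          refine ⟨σ.erase u, Finset.mem_image_of_mem _ hu, σ.erase v, Finset.mem_singleton_self _, ?_, ?_⟩
          · intro x hx
            have := hρ hx
            rw [Finset.mem_erase, Finset.mem_erase] at this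
            rw [Finset.mem_erase]
            exact ⟨this.1, this.2.2⟩
          · exact hρ.trans (Finset.erase_subset _ _)
        · rintro ⟨τ, hτ, τ', hτ', h1, h2⟩
          obtain ⟨u, hu, rfl⟩ := Finset.mem_image.1 hτ
          rw [Finset.mem_singleton] at hτ'
          subst hτ'
          refine ⟨(σ.erase v).erase u, Finset.mem_image_of_mem _ hu, ?_⟩
          intro x hx
          have g1 := h1 hx
          have g2 := h2 hx
          rw [Finset.mem_erase] at g1
          rw [Finset.mem_erase]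
          exact ⟨g1.1, g2⟩

/-- adding one facet -/
lemma Cn.add {k : ℕ} {F : Finset (Finset α)} {σ : Finset α} (R : Finset α) (hk : 1 ≤ k)
    (h1 : ∀ τ ∈ F, τ.card = k) (hσ : σ.card = k) (c : Cn k F) (hne : R.Nonempty) (hR : R ⊆ σ)
    (h2 : ∀ τ ∈ F, ∃ v ∈ R, v ∉ τ) (h3 : ∀ v ∈ R, ∃ τ ∈ F, σ.erase v ⊆ τ) : Cn k (F ∪ {σ}) := by
  have c3 := Cn.bdry R σ hne hR
  rw [hσ] at c3
  refine Cn.step (G := R.image fun v => σ.erase v) hk h1 ?_ c (Cn.base' hσ) ?_ ?_ c3
  · intro τ hτ
    rw [Finset.mem_singleton] at hτ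
    rw [hτ, hσ]
  · intro τ hτ
    obtain ⟨u, hu, rfl⟩ := Finset.mem_image.1 hτ
    rw [Finset.card_erase_of_mem (hR hu), hσ]
  · intro ρ
    constructor
    · rintro ⟨γ, hγ, hρ⟩
      obtain ⟨u, hu, rfl⟩ := Finset.mem_image.1 hγ
      obtain ⟨τ, hτ, hτ2⟩ := h3 u hu
      exact ⟨τ, hτ, σ, Finset.mem_singleton_self _, hρ.trans hτ2, hρ.trans (Finset.erase_subset _ _)⟩
    · rintro ⟨τ, hτ, τ', hτ', g1, g2⟩
      rw [Finset.mem_singleton] at hτ'
      subst hτ'
      obtain ⟨v, hv, hvτ⟩ := h2 τ hτ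
      refine ⟨τ'.erase v, Finset.mem_image_of_mem _ hv, ?_⟩
      intro x hx
      rw [Finset.mem_erase]
      exact ⟨fun e => hvτ (e ▸ g1 hx), g2 hx⟩

/-- gluing two blocks -/
lemma Cn.glue {k : ℕ} {F₁ F₂ G : Finset (Finset α)} (hk : 1 ≤ k)
    (h1 : ∀ σ ∈ F₁, σ.card = k) (h2 : ∀ σ ∈ F₂, σ.card = k) (c1 : Cn k F₁) (c2 : Cn k F₂)
    (h3 : ∀ γ ∈ G, γ.card = k - 1)
    (h4 : ∀ a ∈ F₁, ∀ b ∈ F₂, ∃ g ∈ G, a ∩ b ⊆ g)
    (h5 : ∀ g ∈ G, (∃ a ∈ F₁, g ⊆ a) ∧ (∃ b ∈ F₂, g ⊆ b))
    (c3 : Cn (k - 1) G) : Cn k (F₁ ∪ F₂) := by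
  refine Cn.step hk h1 h2 c1 c2 h3 ?_ c3
  intro ρ
  constructor
  · rintro ⟨γ, hγ, hρ⟩
    obtain ⟨⟨a, ha, ha2⟩, b, hb, hb2⟩ := h5 γ hγ
    exact ⟨a, ha, b, hb, hρ.trans ha2, hρ.trans hb2⟩
  · rintro ⟨a, ha, b, hb, g1, g2⟩
    obtain ⟨g, hg, hg2⟩ := h4 a ha b hb
    exact ⟨g, hg, (Finset.subset_inter g1 g2).trans hg2⟩

/-! Boolean checks -/

noncomputable def anyL (f : ℕ → Bool) (L : List ℕ) : Bool :=
  List.rec (motive := fun _ => Bool) false (fun m _ ih => cond (f m) true ih) L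

lemma anyL_iff (f : ℕ → Bool) (L : List ℕ) : anyL f L = true ↔ ∃ m ∈ L, f m = true := by
  induction L with
  | nil => simp [anyL]
  | cons m L ih =>
    have h1 : anyL f (m :: L) = cond (f m) true (anyL f L) := rfl
    rw [h1, List.exists_mem_cons_iff]
    cases h : f m
    · rw [cond_false, ih]; simp
    · simp

/-- increasing list of numbers in `[lo, n)` -/
noncomputable def inc (n : ℕ) (bs : List ℕ) : ℕ → Bool :=
  List.rec (motive := fun _ => ℕ → Bool) (fun _ => true)
    (fun b _ ih lo => cond (Nat.ble lo b) (cond (Nat.blt b n) (ih (Nat.succ b)) false) false) bs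

lemma inc_spec (n : ℕ) (bs : List ℕ) : ∀ lo, inc n bs lo = true → bs.Nodup ∧ ∀ b ∈ bs, lo ≤ b ∧ b < n := by
  induction bs with
  | nil => intro lo _; simp
  | cons b bs ih =>
    intro lo h
    have h1 : inc n (b :: bs) lo = cond (Nat.ble lo b) (cond (Nat.blt b n) (inc n bs (Nat.succ b)) false)
      false := rfl
    rw [h1] at h
    cases h2 : Nat.ble lo b
    · rw [h2] at h; simp at h
    rw [h2, cond_true] at h
    cases h3 : Nat.blt b n
    · rw [h3] at h; simp at h
    rw [h3, cond_true] at h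
    obtain ⟨h4, h5⟩ := ih _ h
    have h2' : lo ≤ b := Nat.le_of_ble_eq_true h2
    have h3' : b < n := by simpa [Nat.blt] using h3
    refine ⟨?_, ?_⟩
    · rw [List.nodup_cons]
      exact ⟨fun hb => absurd (h5 b hb).1 (Nat.not_succ_le_self b), h4⟩
    · intro c hc
      rcases List.mem_cons.1 hc with rfl | hc
      · exact ⟨h2', h3'⟩
      · exact ⟨h2'.trans ((Nat.le_succ b).trans (h5 c hc).1), (h5 c hc).2⟩

/-- `L` is the list of masks of the lists in `Q`, all of length `k` -/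
noncomputable def ckC (n k : ℕ) (Q : List (List ℕ)) : List ℕ → Bool :=
  List.rec (motive := fun _ => List ℕ → Bool) (fun L => eqL L [])
    (fun bs _ ih L => List.rec (motive := fun _ => Bool) false (fun m L' _ =>
      cond (Nat.beq m (maskOf bs)) (cond (Nat.beq bs.length k) (cond (inc n bs 0) (ih L') false) false) false)
      L) Q

lemma maskOf_lt {n : ℕ} {bs : List ℕ} (h : ∀ b ∈ bs, b < n) : maskOf bs < 2 ^ n := by
  apply Nat.lt_pow_two_of_testBit
  intro i hi
  cases hb : (maskOf bs).testBit i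
  · rfl
  · rw [testBit_maskOf] at hb
    exact absurd (h i hb) (by omega)

lemma card_toFin {n : ℕ} {bs : List ℕ} (hnd : bs.Nodup) (h : ∀ b ∈ bs, b < n) :
    (toFin n (maskOf bs)).card = bs.length := by
  have h1 : (toFin n (maskOf bs)).image (fun i => i.val) = bs.toFinset := by
    ext v
    rw [Finset.mem_image, List.mem_toFinset]
    constructor
    · rintro ⟨i, hi, rfl⟩
      rw [mem_toFin, testBit_maskOf] at hi
      exact hi
    · intro hv
      refine ⟨⟨v, h v hv⟩, ?_, rfl⟩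
      rw [mem_toFin, testBit_maskOf]
      exact hv
  rw [← List.toFinset_card_of_nodup hnd, ← h1, Finset.card_image_of_injective _ Fin.val_injective]

lemma ckC_spec (n k : ℕ) (Q : List (List ℕ)) : ∀ L, ckC n k Q L = true →
    ∀ m ∈ L, (toFin n m).card = k ∧ m < 2 ^ n := by
  induction Q with
  | nil =>
    intro L h m hm
    have : L = [] := eqL_eq h
    rw [this] at hm
    simp at hm
  | cons bs Q ih =>
    intro L h
    cases L with
    | nil => intro m hm; simp at hm
    | cons m L' =>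
      have h1 : ckC n k (bs :: Q) (m :: L') = cond (Nat.beq m (maskOf bs)) (cond (Nat.beq bs.length k)
        (cond (inc n bs 0) (ckC n k Q L') false) false) false := rfl
      rw [h1] at h
      cases h2 : Nat.beq m (maskOf bs)
      · rw [h2] at h; simp at h
      rw [h2, cond_true] at h
      cases h3 : Nat.beq bs.length k
      · rw [h3] at h; simp at h
      rw [h3, cond_true] at h
      cases h4 : inc n bs 0
      · rw [h4] at h; simp at h
      rw [h4, cond_true] at h
      rw [nbeq_iff] at h2 h3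
      obtain ⟨h5, h6⟩ := inc_spec n bs 0 h4
      intro m' hm'
      rcases List.mem_cons.1 hm' with rfl | hm'
      · rw [h2]
        exact ⟨by rw [card_toFin h5 (fun b hb => (h6 b hb).2), h3], maskOf_lt (fun b hb => (h6 b hb).2)⟩
      · exact ih L' h m' hm'

lemma toFin_sub {n m g : ℕ} (h : has m g = true) : toFin n g ⊆ toFin n m := by
  intro i hi
  rw [mem_toFin] at *
  exact (has_iff m g).1 h i.val hi

lemma toFin_inter (n a b : ℕ) : toFin n a ∩ toFin n b = toFin n (Nat.land a b) := by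
  ext i
  rw [Finset.mem_inter, mem_toFin, mem_toFin, mem_toFin]
  have : (Nat.land a b).testBit i.val = (a.testBit i.val && b.testBit i.val) := Nat.testBit_and a b i.val
  rw [this, Bool.and_eq_true]

lemma toFam_cons (n m : ℕ) (L : List ℕ) : toFam n (m :: L) = toFam n L ∪ {toFin n m} := by
  ext s
  simp only [mem_toFam, List.mem_cons, Finset.mem_union, Finset.mem_singleton]
  constructor
  · rintro ⟨m', rfl | hm', rfl⟩
    · exact Or.inr rfl
    · exact Or.inl ⟨m', hm', rfl⟩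
  · rintro (⟨m', hm', rfl⟩ | rfl)
    · exact ⟨m', Or.inr hm', rfl⟩
    · exact ⟨m, Or.inl rfl, rfl⟩

lemma toFam_append (n : ℕ) (L L' : List ℕ) : toFam n (L ++ L') = toFam n L' ∪ toFam n L := by
  ext s
  simp only [mem_toFam, List.mem_append, Finset.mem_union]
  constructor
  · rintro ⟨m', h | h, rfl⟩
    · exact Or.inr ⟨m', h, rfl⟩
    · exact Or.inl ⟨m', h, rfl⟩
  · rintro (⟨m', hm', rfl⟩ | ⟨m', hm', rfl⟩)
    · exact ⟨m', Or.inr hm', rfl⟩
    · exact ⟨m', Or.inl hm', rfl⟩

lemma toFam_single (n m : ℕ) : toFam n [m] = {toFin n m} := by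
  ext s
  simp only [mem_toFam, List.mem_singleton, Finset.mem_singleton]
  constructor
  · rintro ⟨m', rfl, rfl⟩; rfl
  · rintro rfl; exact ⟨m, rfl, rfl⟩

lemma toFam_congr {n : ℕ} {L L' : List ℕ} (h : ∀ m, m ∈ L ↔ m ∈ L') : toFam n L = toFam n L' := by
  ext s
  simp only [mem_toFam, h]

/-- a shelling step: the new facet, its restriction face, and the vertices of this face -/
structure St where
  m : ℕ
  r : ℕ
  rs : List ℕ

noncomputable def ckR (acc : List ℕ) (s : St) : Bool :=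
  cond (Nat.beq s.r (maskOf s.rs)) (cond (Nat.beq s.r 0) false
    (cond (allL (fun v => cond (has s.m (2 ^ v)) (anyL (fun t => has t (Nat.xor s.m (2 ^ v))) acc) false)
      s.rs) (allL (fun t => cond (has t s.r) false true) acc) false)) false

lemma ckR_spec {n k : ℕ} (hk : 1 ≤ k) {acc : List ℕ} {s : St} (h : ckR acc s = true)
    (hacc : ∀ m ∈ acc, (toFin n m).card = k) (hm : (toFin n s.m).card = k ∧ s.m < 2 ^ n)
    (c : Cn k (toFam n acc)) : Cn k (toFam n (s.m :: acc)) := by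
  unfold ckR at h
  cases h1 : Nat.beq s.r (maskOf s.rs)
  · rw [h1] at h; simp at h
  rw [h1, cond_true] at h
  cases h2 : Nat.beq s.r 0
  swap
  · rw [h2] at h; simp at h
  rw [h2, cond_false] at h
  cases h3 : allL (fun v => cond (has s.m (2 ^ v)) (anyL (fun t => has t (Nat.xor s.m (2 ^ v))) acc) false)
      s.rs
  · rw [h3] at h; simp at h
  rw [h3, cond_true, allL_iff] at h
  rw [allL_iff] at h3
  rw [nbeq_iff] at h1
  have hrs : ∀ v ∈ s.rs, s.m.testBit v = true ∧ ∃ t ∈ acc, has t (Nat.xor s.m (2 ^ v)) = true := by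
    intro v hv
    have h4 := h3 v hv
    cases h5 : has s.m (2 ^ v)
    · rw [h5] at h4; simp at h4
    · rw [h5, cond_true, anyL_iff] at h4
      rw [has_two_pow] at h5
      exact ⟨h5, h4⟩
  have hlt : ∀ v ∈ s.rs, v < n := by
    intro v hv
    by_contra hcon
    have h4 := testBit_ge hm.2 (not_lt.1 hcon)
    rw [(hrs v hv).1] at h4
    exact absurd h4 (by simp)
  have hne : s.rs ≠ [] := by
    intro he
    rw [he] at h1
    have h4 : s.r = 0 := h1
    rw [h4] at h2
    simp at h2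
  rw [toFam_cons]
  refine Cn.add (toFin n s.r) hk ?_ hm.1 c ?_ ?_ ?_ ?_
  · intro τ hτ
    obtain ⟨m, hm, rfl⟩ := mem_toFam.1 hτ
    exact hacc m hm
  · obtain ⟨v, hv⟩ := List.exists_mem_of_ne_nil _ hne
    refine ⟨⟨v, hlt v hv⟩, ?_⟩
    rw [mem_toFin, h1, testBit_maskOf]
    exact hv
  · intro i hi
    rw [mem_toFin, h1, testBit_maskOf] at hi
    rw [mem_toFin]
    exact (hrs _ hi).1
  · intro τ hτ
    obtain ⟨t, ht, rfl⟩ := mem_toFam.1 hτ
    have h4 := h t ht
    cases h5 : has t s.r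
    · rw [has_maskOf_false h1] at h5
      obtain ⟨g, hg, hg2⟩ := h5
      rw [List.mem_toFinset] at hg
      refine ⟨⟨g, hlt g hg⟩, ?_, ?_⟩
      · rw [mem_toFin, h1, testBit_maskOf]; exact hg
      · rw [mem_toFin, hg2]; simp
    · rw [h5] at h4; simp at h4
  · intro i hi
    rw [mem_toFin, h1, testBit_maskOf] at hi
    obtain ⟨h4, t, ht, h5⟩ := hrs _ hi
    refine ⟨toFin n t, mem_toFam.2 ⟨t, ht, rfl⟩, ?_⟩
    intro u hu
    rw [Finset.mem_erase, mem_toFin] at hu
    rw [mem_toFin]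
    apply (has_iff _ _).1 h5
    have h6 : (Nat.xor s.m (2 ^ i.val)).testBit u.val = (s.m.testBit u.val ^^ (2 ^ i.val).testBit u.val) :=
      Nat.testBit_xor _ _ _
    rw [h6, hu.2, Nat.testBit_two_pow]
    have h7 : i.val ≠ u.val := fun e => hu.1 (Fin.ext e.symm)
    simp [h7]

noncomputable def shR (Lf : List ℕ) (ss : List St) : List ℕ → Bool :=
  List.rec (motive := fun _ => List ℕ → Bool) (fun acc => eqL acc Lf)
    (fun s _ ih acc => cond (ckR acc s) (ih (s.m :: acc)) false) ss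

lemma shR_sub (Lf : List ℕ) (ss : List St) : ∀ acc, shR Lf ss acc = true → ∀ m ∈ acc, m ∈ Lf := by
  induction ss with
  | nil =>
    intro acc h m hm
    have : acc = Lf := eqL_eq h
    rw [← this]; exact hm
  | cons s ss ih =>
    intro acc h m hm
    have h1 : shR Lf (s :: ss) acc = cond (ckR acc s) (shR Lf ss (s.m :: acc)) false := rfl
    rw [h1] at h
    cases h2 : ckR acc s
    · rw [h2] at h; simp at h
    rw [h2, cond_true] at h
    exact ih _ h m (List.mem_cons_of_mem _ hm)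

theorem shR_cn {n k : ℕ} (hk : 1 ≤ k) (Lf : List ℕ) (hL : ∀ m ∈ Lf, (toFin n m).card = k ∧ m < 2 ^ n)
    (ss : List St) : ∀ acc, shR Lf ss acc = true → Cn k (toFam n acc) → Cn k (toFam n Lf) := by
  induction ss with
  | nil =>
    intro acc h c
    have : acc = Lf := eqL_eq h
    rw [← this]; exact c
  | cons s ss ih =>
    intro acc h c
    have hsub := shR_sub Lf (s :: ss) acc h
    have h1 : shR Lf (s :: ss) acc = cond (ckR acc s) (shR Lf ss (s.m :: acc)) false := rfl
    rw [h1] at h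
    cases h2 : ckR acc s
    · rw [h2] at h; simp at h
    rw [h2, cond_true] at h
    have hsm : s.m ∈ Lf := shR_sub Lf ss _ h s.m List.mem_cons_self
    exact ih _ h (ckR_spec hk h2 (fun m hm => (hL m (hsub m hm)).1) (hL _ hsm) c)

theorem sh_cn {n k : ℕ} (hk : 1 ≤ k) (Lf : List ℕ) (hL : ∀ m ∈ Lf, (toFin n m).card = k ∧ m < 2 ^ n)
    (ss : List St) (m0 : ℕ) (h : shR Lf ss [m0] = true) : Cn k (toFam n Lf) := by
  refine shR_cn hk Lf hL ss _ h ?_
  rw [toFam_single]
  exact Cn.base' (hL m0 (shR_sub Lf ss _ h m0 (by simp))).1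

noncomputable def ckGl (V : ℕ) (G F2 F1 : List ℕ) : Bool :=
  cond (allL (fun b => has V b) F2)
    (cond (allL (fun a => cond (anyL (fun g => has g (Nat.land a V)) G) true
      (allL (fun b => anyL (fun g => has g (Nat.land a b)) G) F2)) F1)
      (allL (fun g => cond (anyL (fun a => has a g) F1) (anyL (fun b => has b g) F2) false) G) false) false

theorem glue_cn {n k : ℕ} (hk : 1 ≤ k) {V : ℕ} {G F2 F1 : List ℕ} (h : ckGl V G F2 F1 = true)
    (h1 : ∀ m ∈ F1, (toFin n m).card = k) (h2 : ∀ m ∈ F2, (toFin n m).card = k)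
    (h3 : ∀ m ∈ G, (toFin n m).card = k - 1)
    (c1 : Cn k (toFam n F1)) (c2 : Cn k (toFam n F2)) (c3 : Cn (k - 1) (toFam n G)) :
    Cn k (toFam n (F2 ++ F1)) := by
  unfold ckGl at h
  cases g1 : allL (fun b => has V b) F2
  · rw [g1] at h; simp at h
  rw [g1, cond_true] at h
  cases g2 : allL (fun a => cond (anyL (fun g => has g (Nat.land a V)) G) true
      (allL (fun b => anyL (fun g => has g (Nat.land a b)) G) F2)) F1
  · rw [g2] at h; simp at h
  rw [g2, cond_true, allL_iff] at h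
  rw [allL_iff] at g1 g2
  rw [toFam_append]
  refine Cn.glue (G := toFam n G) hk ?_ ?_ c1 c2 ?_ ?_ ?_ c3
  · intro σ hσ
    obtain ⟨m, hm, rfl⟩ := mem_toFam.1 hσ
    exact h1 m hm
  · intro σ hσ
    obtain ⟨m, hm, rfl⟩ := mem_toFam.1 hσ
    exact h2 m hm
  · intro σ hσ
    obtain ⟨m, hm, rfl⟩ := mem_toFam.1 hσ
    exact h3 m hm
  · intro a' ha' b' hb'
    obtain ⟨a, ha, rfl⟩ := mem_toFam.1 ha'
    obtain ⟨b, hb, rfl⟩ := mem_toFam.1 hb'
    have g3 := g2 a ha
    cases g4 : anyL (fun g => has g (Nat.land a V)) G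
    · rw [g4, cond_false, allL_iff] at g3
      have g5 := g3 b hb
      rw [anyL_iff] at g5
      obtain ⟨g, hg, hg2⟩ := g5
      refine ⟨toFin n g, mem_toFam.2 ⟨g, hg, rfl⟩, ?_⟩
      rw [toFin_inter]
      exact toFin_sub hg2
    · rw [anyL_iff] at g4
      obtain ⟨g, hg, hg2⟩ := g4
      refine ⟨toFin n g, mem_toFam.2 ⟨g, hg, rfl⟩, ?_⟩
      refine Finset.Subset.trans ?_ (toFin_sub hg2)
      rw [← toFin_inter]
      exact Finset.inter_subset_inter_left (toFin_sub (g1 b hb))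
  · intro g' hg'
    obtain ⟨g, hg, rfl⟩ := mem_toFam.1 hg'
    have g3 := h g hg
    cases g4 : anyL (fun a => has a g) F1
    · rw [g4] at g3; simp at g3
    · rw [g4, cond_true, anyL_iff] at g3
      rw [anyL_iff] at g4
      obtain ⟨a, ha, ha2⟩ := g4
      obtain ⟨b, hb, hb2⟩ := g3
      exact ⟨⟨toFin n a, mem_toFam.2 ⟨a, ha, rfl⟩, toFin_sub ha2⟩,
        toFin n b, mem_toFam.2 ⟨b, hb, rfl⟩, toFin_sub hb2⟩

end Pool.Agent.V11126.Cons
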