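import Pool.Agent.V11126.Cons.Stellar

/-!
Frame rule for stellar moves: moves inside a block `L` of the complex extend to `L ++ K` when the
faces which are subdivided do not lie in facets of `K`.
-/

namespace Pool.Agent.V11126.Cons

open Finset

lemma StelRel.frame {L L' K : List ℕ} {G : Finset ℕ} {w : ℕ} (h : StelRel L L' G w)
    (h1 : ∀ k ∈ K, k.testBit w = false) (h2 : ∀ k ∈ K, ∃ g ∈ G, k.testBit g = false) :
    StelRel (L ++ K) (L' ++ K) G w := by
  refine ⟨h.ne, h.sub, h.wlt, h.wG, ?_, ?_, ?_, ?_⟩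
  · intro m hm
    rcases List.mem_append.1 hm with hm | hm
    · exact h.c1 m hm
    · exact h1 m hm
  · intro m hm hall g hg
    rcases List.mem_append.1 hm with hm | hm
    · obtain ⟨m', hm', hm2⟩ := h.c2 m hm hall g hg
      exact ⟨m', List.mem_append_left _ hm', hm2⟩
    · obtain ⟨g', hg', hg2⟩ := h2 m hm
      rw [hall g' hg'] at hg2
      exact absurd hg2 (by simp)
  · intro m hm hex
    rcases List.mem_append.1 hm with hm | hm
    · exact List.mem_append_left _ (h.c2' m hm hex)
    · exact List.mem_append_right _ hm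
  · intro m' hm'
    rcases List.mem_append.1 hm' with hm | hm
    · rcases h.c3 m' hm with ⟨h3, h4⟩ | ⟨m, hm2, h3⟩
      · exact Or.inl ⟨List.mem_append_left _ h3, h4⟩
      · exact Or.inr ⟨m, List.mem_append_left _ hm2, h3⟩
    · exact Or.inl ⟨List.mem_append_right _ hm, h2 m' hm⟩

/-- the outside facets meet the vertex set `W` of the block only in the faces `tr` -/
noncomputable def ckTr (W : ℕ) (tr K : List ℕ) : Bool :=
  allL (fun k => memL (Nat.land k W) tr) K

/-- the faces of the moves lie in `W` and do not lie in any of the faces `tr` -/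
noncomputable def ckFr (W : ℕ) (tr : List ℕ) (ms : List Mv) : Bool :=
  List.rec (motive := fun _ => Bool) true (fun mv _ ih =>
    cond (has W mv.Gm) (cond (has W (2 ^ mv.w))
      (cond (allL (fun t => cond (has t mv.Gm) false (cond (has t (2 ^ mv.w)) false true)) tr) ih false)
      false) false) ms

lemma ckFr_cons {W : ℕ} {tr : List ℕ} {mv : Mv} {ms : List Mv} (h : ckFr W tr (mv :: ms) = true) :
    has W mv.Gm = true ∧ has W (2 ^ mv.w) = true ∧
      (∀ t ∈ tr, has t mv.Gm = false ∧ has t (2 ^ mv.w) = false) ∧ ckFr W tr ms = true := by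
  have h1 : ckFr W tr (mv :: ms) = cond (has W mv.Gm) (cond (has W (2 ^ mv.w))
      (cond (allL (fun t => cond (has t mv.Gm) false (cond (has t (2 ^ mv.w)) false true)) tr)
        (ckFr W tr ms) false) false) false := rfl
  rw [h1] at h
  cases h2 : has W mv.Gm
  · rw [h2] at h; simp at h
  rw [h2, cond_true] at h
  cases h3 : has W (2 ^ mv.w)
  · rw [h3] at h; simp at h
  rw [h3, cond_true] at h
  cases h4 : allL (fun t => cond (has t mv.Gm) false (cond (has t (2 ^ mv.w)) false true)) tr
  · rw [h4] at h; simp at h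
  rw [h4, cond_true] at h
  rw [allL_iff] at h4
  refine ⟨rfl, rfl, ?_, h⟩
  intro t ht
  have h5 := h4 t ht
  cases h6 : has t mv.Gm
  · rw [h6, cond_false] at h5
    cases h7 : has t (2 ^ mv.w)
    · exact ⟨rfl, rfl⟩
    · rw [h7] at h5; simp at h5
  · rw [h6] at h5; simp at h5

lemma has_land {k W g : ℕ} (h1 : has k g = true) (h2 : has W g = true) : has (Nat.land k W) g = true := by
  rw [has_iff] at *
  intro v hv
  have : (Nat.land k W).testBit v = (k.testBit v && W.testBit v) := Nat.testBit_and k W v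
  rw [this, h1 v hv, h2 v hv]
  rfl

lemma frame_out {W : ℕ} {tr K : List ℕ} (hT : ckTr W tr K = true) {g : ℕ} (hg : has W g = true)
    (h : ∀ t ∈ tr, has t g = false) : ∀ k ∈ K, has k g = false := by
  intro k hk
  unfold ckTr at hT
  rw [allL_iff] at hT
  have h1 := hT k hk
  rw [memL_iff] at h1
  by_contra hcon
  rw [Bool.not_eq_false] at hcon
  have h2 := has_land hcon hg
  rw [h _ h1] at h2
  exact absurd h2 (by simp)

theorem runM_frame (W : ℕ) (tr K : List ℕ) (hT : ckTr W tr K = true) (Lf : List ℕ) (ms : List Mv) :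
    ∀ L : List ℕ, ckFr W tr ms = true → runM Lf ms L = true →
    Nonempty (Rm (L ++ K) ≃ₜ Rm (Lf ++ K)) := by
  induction ms with
  | nil =>
    intro L _ h
    have : L = Lf := eqL_eq h
    subst this
    exact ⟨Homeomorph.refl _⟩
  | cons mv ms ih =>
    intro L hF h
    obtain ⟨hF1, hF2, hF3, hF4⟩ := ckFr_cons hF
    have o1 := frame_out hT hF1 (fun t ht => (hF3 t ht).1)
    have o2 := frame_out hT hF2 (fun t ht => (hF3 t ht).2)
    have o2' : ∀ k ∈ K, k.testBit mv.w = false := by
      intro k hk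
      rw [← has_two_pow]; exact o2 k hk
    have h1 : runM Lf (mv :: ms) L = cond (Nat.beq mv.t 0)
      (cond (ckS mv.Gm mv.w mv.gs L) (runM Lf ms (stelL mv.Gm mv.w mv.gs L)) false)
      (cond (ckW mv.Gm mv.w mv.g0 mv.gs (weldA mv.w mv.g0 L) L)
        (runM Lf ms (weldL mv.w (weldA mv.w mv.g0 L) L)) false) := rfl
    rw [h1] at h
    cases h2 : Nat.beq mv.t 0
    · rw [h2, cond_false] at h
      cases h3 : ckW mv.Gm mv.w mv.g0 mv.gs (weldA mv.w mv.g0 L) L
      · rw [h3] at h; simp at h
      · rw [h3, cond_true] at h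
        obtain ⟨e1⟩ := ih _ hF4 h
        have h4 : ckG mv.Gm mv.w mv.gs = true := by
          cases h5 : ckG mv.Gm mv.w mv.gs
          · unfold ckW at h3
            rw [h5] at h3; simp at h3
          · rfl
        obtain ⟨hG, _⟩ := ckG_iff h4
        have o1' : ∀ k ∈ K, ∃ g ∈ mv.gs.toFinset, k.testBit g = false :=
          fun k hk => (has_maskOf_false hG k).1 (o1 k hk)
        obtain ⟨e2⟩ := ((ckW_rel h3).frame o2' o1').homeo
        exact ⟨e2.symm.trans e1⟩
    · rw [h2, cond_true] at h
      cases h3 : ckS mv.Gm mv.w mv.gs L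
      · rw [h3] at h; simp at h
      · rw [h3, cond_true] at h
        obtain ⟨e1⟩ := ih _ hF4 h
        have h4 : ckG mv.Gm mv.w mv.gs = true := by
          cases h5 : ckG mv.Gm mv.w mv.gs
          · unfold ckS at h3
            rw [h5] at h3; simp at h3
          · rfl
        obtain ⟨hG, _⟩ := ckG_iff h4
        have o1' : ∀ k ∈ K, ∃ g ∈ mv.gs.toFinset, k.testBit g = false :=
          fun k hk => (has_maskOf_false hG k).1 (o1 k hk)
        obtain ⟨e2⟩ := ((ckS_rel h3).frame o2' o1').homeo
        exact ⟨e2.trans e1⟩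

/-- the realization depends only on the set of facets -/
lemma Rm_congr {L L' : List ℕ} (h : ∀ m, m ∈ L ↔ m ∈ L') : Rm L = Rm L' := by
  unfold Rm
  ext x
  simp only [Set.mem_setOf_eq, h]

theorem Rm_homeo_congr {L L' : List ℕ} (h : ∀ m, m ∈ L ↔ m ∈ L') : Nonempty (Rm L ≃ₜ Rm L') := by
  rw [Rm_congr h]
  exact ⟨Homeomorph.refl _⟩

end Pool.Agent.V11126.Cons
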