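import Pool.Agent.V11126.Cons.Chk0
import Pool.Agent.V11126.Cons.Chk1
import Pool.Agent.V11126.Cons.Chk2
import Pool.Agent.V11126.Cons.Chk3
import Pool.Agent.V11126.Cons.Chk4
import Pool.Agent.V11126.Cons.Chk5
import Pool.Agent.V11126.Cons.Chk6
import Pool.Agent.V11126.Cons.Chk7
import Pool.Agent.V11126.Cons.Chk8
import Pool.Agent.V11126.Cons.Chk9
import Pool.Agent.V11126.Cons.Chk10

namespace Pool.Agent.V11126.Cons

def dR : List ℕ := [9729,68097,197121,43009,83969,68098,197122,35842,99330,83970,9732,37380,155652,77840,155664,50208,99360,37440,77952,36096,50432,43264]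

def dRQ : List (List ℕ) := [[0,9,10,13],[0,9,11,16],[0,9,16,17],[0,11,13,15],[0,11,14,16],[1,9,11,16],[1,9,16,17],[1,10,11,15],[1,10,15,16],[1,11,14,16],[2,9,10,13],[2,9,12,15],[2,13,14,17],[4,12,13,16],[4,13,14,17],[5,10,14,15],[5,10,15,16],[6,9,12,15],[7,12,13,16],[8,10,11,15],[8,10,14,15],[8,11,13,15]]

theorem kR : ckC 161 4 dRQ dR = true := by decide +kernel

theorem specR : ∀ m ∈ dR, (toFin 161 m).card = 4 ∧ m < 2 ^ 161 := ckC_spec 161 4 dRQ dR kR

def dA0 : List ℕ := [99330]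

theorem gA0 : Good 161 dA0 := good_one (specR _ (by simp [dR]))

def dA1 : List ℕ := 35842 :: dA0

theorem tA1 : ckR dA0 ⟨35842,2048,[11]⟩ = true := by decide +kernel

theorem gA1 : Good 161 dA1 := good_tet ⟨35842,2048,[11]⟩ rfl gA0 tA1 (specR _ (by simp [dR]))

def dA2 : List ℕ := dT0 ++ dA1

theorem tA2 : ckGl 2147265031 dH0 dT0 dA1 = true := by decide +kernel

theorem gA2 : Good 161 dA2 := good_blk gA1 goodT0 kH0 kI0 tA2

def dA3 : List ℕ := 37380 :: dA2

theorem tA3 : ckR dA2 ⟨37380,4096,[12]⟩ = true := by decide +kernel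

theorem gA3 : Good 161 dA3 := good_tet ⟨37380,4096,[12]⟩ rfl gA2 tA3 (specR _ (by simp [dR]))

def dA4 : List ℕ := 36096 :: dA3

theorem tA4 : ckR dA3 ⟨36096,256,[8]⟩ = true := by decide +kernel

theorem gA4 : Good 161 dA4 := good_tet ⟨36096,256,[8]⟩ rfl gA3 tA4 (specR _ (by simp [dR]))

def dA5 : List ℕ := 50432 :: dA4

theorem tA5 : ckR dA4 ⟨50432,16384,[14]⟩ = true := by decide +kernel

theorem gA5 : Good 161 dA5 := good_tet ⟨50432,16384,[14]⟩ rfl gA4 tA5 (specR _ (by simp [dR]))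

def dA6 : List ℕ := 37440 :: dA5

theorem tA6 : ckR dA5 ⟨37440,64,[6]⟩ = true := by decide +kernel

theorem gA6 : Good 161 dA6 := good_tet ⟨37440,64,[6]⟩ rfl gA5 tA6 (specR _ (by simp [dR]))

def dA7 : List ℕ := dT6 ++ dA6

theorem tA7 : ckGl 648957879154339189228718497432162 dH6 dT6 dA6 = true := by decide +kernel

theorem gA7 : Good 161 dA7 := good_blk gA6 goodT6 kH6 kI6 tA7

def dA8 : List ℕ := 43009 :: dA7

theorem tA8 : ckR dA7 ⟨43009,10240,[11,13]⟩ = true := by decide +kernel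

theorem gA8 : Good 161 dA8 := good_tet ⟨43009,10240,[11,13]⟩ rfl gA7 tA8 (specR _ (by simp [dR]))

def dA9 : List ℕ := 197122 :: dA8

theorem tA9 : ckR dA8 ⟨197122,66048,[9,16]⟩ = true := by decide +kernel

theorem gA9 : Good 161 dA9 := good_tet ⟨197122,66048,[9,16]⟩ rfl gA8 tA9 (specR _ (by simp [dR]))

def dA10 : List ℕ := 99360 :: dA9

theorem tA10 : ckR dA9 ⟨99360,1056,[5,10]⟩ = true := by decide +kernel

theorem gA10 : Good 161 dA10 := good_tet ⟨99360,1056,[5,10]⟩ rfl gA9 tA10 (specR _ (by simp [dR]))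

def dA11 : List ℕ := 68098 :: dA10

theorem tA11 : ckR dA10 ⟨68098,67584,[11,16]⟩ = true := by decide +kernel

theorem gA11 : Good 161 dA11 := good_tet ⟨68098,67584,[11,16]⟩ rfl gA10 tA11 (specR _ (by simp [dR]))

def dA12 : List ℕ := 50208 :: dA11

theorem tA12 : ckR dA11 ⟨50208,16416,[5,14]⟩ = true := by decide +kernel

theorem gA12 : Good 161 dA12 := good_tet ⟨50208,16416,[5,14]⟩ rfl gA11 tA12 (specR _ (by simp [dR]))

def dA13 : List ℕ := 43264 :: dA12

theorem tA13 : ckR dA12 ⟨43264,8448,[8,13]⟩ = true := by decide +kernel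

theorem gA13 : Good 161 dA13 := good_tet ⟨43264,8448,[8,13]⟩ rfl gA12 tA13 (specR _ (by simp [dR]))

def dA14 : List ℕ := 68097 :: dA13

theorem tA14 : ckR dA13 ⟨68097,65537,[0,16]⟩ = true := by decide +kernel

theorem gA14 : Good 161 dA14 := good_tet ⟨68097,65537,[0,16]⟩ rfl gA13 tA14 (specR _ (by simp [dR]))

def dA15 : List ℕ := dT9 ++ dA14

theorem tA15 : ckGl 356768367033524090141248180412622517764808996 dH9 dT9 dA14 = true := by decide +kernel

theorem gA15 : Good 161 dA15 := good_blk gA14 goodT9 kH9 kI9 tA15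

def dA16 : List ℕ := 155652 :: dA15

theorem tA16 : ckR dA15 ⟨155652,139264,[13,17]⟩ = true := by decide +kernel

theorem gA16 : Good 161 dA16 := good_tet ⟨155652,139264,[13,17]⟩ rfl gA15 tA16 (specR _ (by simp [dR]))

def dA17 : List ℕ := dT8 ++ dA16

theorem tA17 : ckGl 43550826053896983659820334523025209864276 dH8 dT8 dA16 = true := by decide +kernel

theorem gA17 : Good 161 dA17 := good_blk gA16 goodT8 kH8 kI8 tA17

def dA18 : List ℕ := 197121 :: dA17

theorem tA18 : ckR dA17 ⟨197121,131073,[0,17]⟩ = true := by decide +kernel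

theorem gA18 : Good 161 dA18 := good_tet ⟨197121,131073,[0,17]⟩ rfl gA17 tA18 (specR _ (by simp [dR]))

def dA19 : List ℕ := 155664 :: dA18

theorem tA19 : ckR dA18 ⟨155664,16400,[4,14]⟩ = true := by decide +kernel

theorem gA19 : Good 161 dA19 := good_tet ⟨155664,16400,[4,14]⟩ rfl gA18 tA19 (specR _ (by simp [dR]))

def dA20 : List ℕ := dT10 ++ dA19

theorem tA20 : ckGl 2922646462738629346437105093940203665527769551928 dH10 dT10 dA19 = true := by decide +kernel

theorem gA20 : Good 161 dA20 := good_blk gA19 goodT10 kH10 kI10 tA20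

def dA21 : List ℕ := dT1 ++ dA20

theorem tA21 : ckGl 17590038697545 dH1 dT1 dA20 = true := by decide +kernel

theorem gA21 : Good 161 dA21 := good_blk gA20 goodT1 kH1 kI1 tA21

def dA22 : List ℕ := 9729 :: dA21

theorem tA22 : ckR dA21 ⟨9729,9216,[10,13]⟩ = true := by decide +kernel

theorem gA22 : Good 161 dA22 := good_tet ⟨9729,9216,[10,13]⟩ rfl gA21 tA22 (specR _ (by simp [dR]))

def dA23 : List ℕ := 9732 :: dA22

theorem tA23 : ckR dA22 ⟨9732,1028,[2,10]⟩ = true := by decide +kernel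

theorem gA23 : Good 161 dA23 := good_tet ⟨9732,1028,[2,10]⟩ rfl gA22 tA23 (specR _ (by simp [dR]))

def dA24 : List ℕ := dT7 ++ dA23

theorem tA24 : ckGl 5316262946032346638161661929080239756 dH7 dT7 dA23 = true := by decide +kernel

theorem gA24 : Good 161 dA24 := good_blk gA23 goodT7 kH7 kI7 tA24

def dA25 : List ℕ := dT3 ++ dA24

theorem tA25 : ckGl 1180447505529335653537 dH3 dT3 dA24 = true := by decide +kernel

theorem gA25 : Good 161 dA25 := good_blk gA24 goodT3 kH3 kI3 tA25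

def dA26 : List ℕ := dT2 ++ dA25

theorem tA26 : ckGl 144097595889903889 dH2 dT2 dA25 = true := by decide +kernel

theorem gA26 : Good 161 dA26 := good_blk gA25 goodT2 kH2 kI2 tA26

def dA27 : List ℕ := 77840 :: dA26

theorem tA27 : ckR dA26 ⟨77840,69632,[12,16]⟩ = true := by decide +kernel

theorem gA27 : Good 161 dA27 := good_tet ⟨77840,69632,[12,16]⟩ rfl gA26 tA27 (specR _ (by simp [dR]))

def dA28 : List ℕ := 77952 :: dA27

theorem tA28 : ckR dA27 ⟨77952,69760,[7,12,16]⟩ = true := by decide +kernel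

theorem gA28 : Good 161 dA28 := good_tet ⟨77952,69760,[7,12,16]⟩ rfl gA27 tA28 (specR _ (by simp [dR]))

def dA29 : List ℕ := dT5 ++ dA28

theorem tA29 : ckGl 79218491107707420560146388114 dH5 dT5 dA28 = true := by decide +kernel

theorem gA29 : Good 161 dA29 := good_blk gA28 goodT5 kH5 kI5 tA29

def dA30 : List ℕ := 83969 :: dA29

theorem tA30 : ckR dA29 ⟨83969,83968,[11,14,16]⟩ = true := by decide +kernel

theorem gA30 : Good 161 dA30 := good_tet ⟨83969,83968,[11,14,16]⟩ rfl gA29 tA30 (specR _ (by simp [dR]))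

def dA31 : List ℕ := 83970 :: dA30

theorem tA31 : ckR dA30 ⟨83970,18434,[1,11,14]⟩ = true := by decide +kernel

theorem gA31 : Good 161 dA31 := good_tet ⟨83970,18434,[1,11,14]⟩ rfl gA30 tA31 (specR _ (by simp [dR]))

def dA32 : List ℕ := dT4 ++ dA31

theorem tA32 : ckGl 9670225965296315986369802 dH4 dT4 dA31 = true := by decide +kernel

theorem gA32 : Good 161 dA32 := good_blk gA31 goodT4 kH4 kI4 tA32

def dSL : List ℕ := dA32

theorem goodS : Good 161 dSL := gA32

theorem mem_SL (m : ℕ) : m ∈ dSL ↔ m ∈ dR ∨ m ∈ dT0 ∨ m ∈ dT1 ∨ m ∈ dT2 ∨ m ∈ dT3 ∨ m ∈ dT4 ∨ m ∈ dT5 ∨ m ∈ dT6 ∨ m ∈ dT7 ∨ m ∈ dT8 ∨ m ∈ dT9 ∨ m ∈ dT10 := by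
  simp only [dSL, dA0, dA1, dA2, dA3, dA4, dA5, dA6, dA7, dA8, dA9, dA10, dA11, dA12, dA13, dA14, dA15, dA16, dA17, dA18, dA19, dA20, dA21, dA22, dA23, dA24, dA25, dA26, dA27, dA28, dA29, dA30, dA31, dA32, dR, List.mem_append, List.mem_cons, List.not_mem_nil, or_false]
  tauto

end Pool.Agent.V11126.Cons
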