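import Pool.Agent.V11126.Cons.Constr

/-!
The obstruction to shellability: many balls all of whose boundary facets are cones over boundary
triangles from few common vertices.
-/

namespace Pool.Agent.V11126.Cons

open Finset

/-- a facet of one of the balls, with the mask of its apex (`0` when it has no boundary triangle) -/
structure BF where
  m : ℕ
  z : ℕ

noncomputable def bms (B : List BF) : List ℕ :=
  List.rec (motive := fun _ => List ℕ) [] (fun b _ ih => b.m :: ih) B

lemma mem_bms (B : List BF) (m : ℕ) : m ∈ bms B ↔ ∃ b ∈ B, b.m = m := by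
  induction B with
  | nil => simp [bms]
  | cons b B ih =>
    have h1 : bms (b :: B) = b.m :: bms B := rfl
    rw [h1, List.mem_cons, ih]
    simp [eq_comm]

noncomputable def ckB1 (SL : List ℕ) (bm : List ℕ) (b : BF) : Bool :=
  allL (fun s => cond (Nat.beq (Nat.xor b.m (Nat.land b.m s)) b.z) true
    (cond (Nat.beq (Nat.land (Nat.xor b.m (Nat.land b.m s)) (Nat.sub (Nat.xor b.m (Nat.land b.m s)) 1)) 0)
      (memL s bm) true)) SL

noncomputable def ckB (SL : List ℕ) (bm : List ℕ) (B : List BF) : Bool :=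
  List.rec (motive := fun _ => Bool) true (fun b _ ih => cond (ckB1 SL bm b) ih false) B

lemma ckB_iff (SL : List ℕ) (bm : List ℕ) (B : List BF) :
    ckB SL bm B = true ↔ ∀ b ∈ B, ckB1 SL bm b = true := by
  induction B with
  | nil => simp [ckB]
  | cons b B ih =>
    have h1 : ckB SL bm (b :: B) = cond (ckB1 SL bm b) (ckB SL bm B) false := rfl
    rw [h1]
    cases h : ckB1 SL bm b
    · simp [h]
    · simp [h, ih]

lemma toFin_inj {n a b : ℕ} (ha : a < 2 ^ n) (hb : b < 2 ^ n) (h : toFin n a = toFin n b) : a = b := by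
  apply Nat.eq_of_testBit_eq
  intro i
  by_cases hi : i < n
  · have h1 : (⟨i, hi⟩ : Fin n) ∈ toFin n a ↔ (⟨i, hi⟩ : Fin n) ∈ toFin n b := by rw [h]
    rw [mem_toFin, mem_toFin] at h1
    dsimp only at h1
    cases h2 : a.testBit i <;> cases h3 : b.testBit i
    · rfl
    · rw [h2, h3] at h1; simp at h1
    · rw [h2, h3] at h1; simp at h1
    · rfl
  · rw [testBit_ge ha (not_lt.1 hi), testBit_ge hb (not_lt.1 hi)]

lemma diff_single {n a s : ℕ} (ha : a < 2 ^ n) {v : Fin n} (h : toFin n a \ toFin n s = {v}) :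
    Nat.xor a (Nat.land a s) = 2 ^ v.val := by
  apply Nat.eq_of_testBit_eq
  intro i
  have h1 : (Nat.xor a (Nat.land a s)).testBit i = (a.testBit i ^^ (a.testBit i && s.testBit i)) := by
    have : (Nat.xor a (Nat.land a s)).testBit i = (a.testBit i ^^ (Nat.land a s).testBit i) :=
      Nat.testBit_xor _ _ _
    rw [this]
    have : (Nat.land a s).testBit i = (a.testBit i && s.testBit i) := Nat.testBit_and _ _ _
    rw [this]
  rw [h1, Nat.testBit_two_pow]
  by_cases hi : i < n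
  · have h2 : (⟨i, hi⟩ : Fin n) ∈ toFin n a \ toFin n s ↔ (⟨i, hi⟩ : Fin n) = v := by
      rw [h, Finset.mem_singleton]
    rw [Finset.mem_sdiff, mem_toFin, mem_toFin, Fin.ext_iff] at h2
    dsimp only at h2
    cases h3 : a.testBit i <;> cases h4 : s.testBit i <;> rw [h3, h4] at h2
    · have : v.val ≠ i := fun e => by simp [e] at h2
      simp [this]
    · have : v.val ≠ i := fun e => by simp [e] at h2
      simp [this]
    · have : v.val = i := by simpa [eq_comm] using h2
      simp [this]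
    · have : v.val ≠ i := fun e => by simp [e] at h2
      simp [this]
  · rw [testBit_ge ha (not_lt.1 hi)]
    have : v.val ≠ i := by have := v.isLt; omega
    simp [this]

theorem nonshell {n : ℕ} (SL : List ℕ) (hS : ∀ m ∈ SL, m < 2 ^ n) (M Z : ℕ) (BZ : ℕ → List BF)
    (hck : ∀ j < M, ckB SL (bms (BZ j)) (BZ j) = true)
    (hsub : ∀ j < M, ∀ b ∈ BZ j, b.m ∈ SL) (hne : ∀ j < M, ∃ b, b ∈ BZ j)
    (hdisj : ∀ i j, i < M → j < M → i ≠ j → ∀ b ∈ BZ i, ∀ c ∈ BZ j, b.m ≠ c.m)
    (hz : ∀ j < M, ∀ b ∈ BZ j, ∀ v, b.z = 2 ^ v → v < Z) (hMZ : Z + 2 ≤ M) :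
    ¬ ∃ L : List (Finset (Fin n)), L.Nodup ∧ L.toFinset = toFam n SL ∧
      ∀ i j : Fin L.length, i < j → ∃ k : Fin L.length, k < j ∧
        L.get i ∩ L.get j ⊆ L.get k ∩ L.get j ∧ (L.get j \ L.get k).card = 1 := by
  rintro ⟨L, -, hF, hsh⟩
  have hmemL : ∀ p : Fin L.length, ∃ m ∈ SL, toFin n m = L.get p := by
    intro p
    have h1 : L.get p ∈ L.toFinset := List.mem_toFinset.2 (List.get_mem L p)
    rw [hF] at h1
    exact mem_toFam.1 h1
  have hp : ∀ j : Fin M, ∃ p : Fin L.length, (∃ b ∈ BZ j.val, L.get p = toFin n b.m) ∧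
      ∀ q : Fin L.length, q < p → ¬ ∃ b ∈ BZ j.val, L.get q = toFin n b.m := by
    intro j
    obtain ⟨b, hb⟩ := hne j.val j.isLt
    have h1 : toFin n b.m ∈ L.toFinset := by
      rw [hF]; exact mem_toFam.2 ⟨b.m, hsub _ j.isLt b hb, rfl⟩
    rw [List.mem_toFinset] at h1
    obtain ⟨p, hp⟩ := List.get_of_mem h1
    have h2 : ({p : Fin L.length | ∃ b ∈ BZ j.val, L.get p = toFin n b.m}).Nonempty := ⟨p, b, hb, hp⟩
    obtain ⟨p0, hp0, hmin⟩ := WellFounded.has_min (wellFounded_lt (α := Fin L.length)) _ h2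
    exact ⟨p0, hp0, fun q hq hq2 => hmin q hq2 hq⟩
  choose p hp1 hp2 using hp
  have hinj : Function.Injective p := by
    intro i j hij
    by_contra hne'
    obtain ⟨b, hb, hb2⟩ := hp1 i
    obtain ⟨c, hc, hc2⟩ := hp1 j
    rw [hij, hc2] at hb2
    have h3 := toFin_inj (hS _ (hsub _ j.isLt c hc)) (hS _ (hsub _ i.isLt b hb)) hb2
    exact hdisj i.val j.val i.isLt j.isLt (fun e => hne' (Fin.ext e)) b hb c hc h3.symm
  -- the key local statement
  have key : ∀ (j : Fin M) (b : BF), b ∈ BZ j.val → L.get (p j) = toFin n b.m →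
      ∀ k : Fin L.length, k < p j → ∀ v : Fin n, L.get (p j) \ L.get k = {v} → b.z = 2 ^ v.val := by
    intro j b hb hb2 k hk v hv
    obtain ⟨s, hs, hs2⟩ := hmemL k
    rw [hb2, ← hs2] at hv
    have h1 := diff_single (hS _ (hsub _ j.isLt b hb)) hv
    have h2 := (ckB_iff _ _ _).1 (hck j.val j.isLt) b hb
    unfold ckB1 at h2
    rw [allL_iff] at h2
    have h3 := h2 s hs
    rw [h1] at h3
    cases h4 : Nat.beq (2 ^ v.val) b.z
    · rw [h4, cond_false] at h3
      have h5 : Nat.beq (Nat.land (2 ^ v.val) (Nat.sub (2 ^ v.val) 1)) 0 = true := by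
        rw [nbeq_iff]
        have h6 : Nat.land (2 ^ v.val) (Nat.sub (2 ^ v.val) 1) = 2 ^ v.val % 2 ^ v.val :=
          Nat.and_two_pow_sub_one_eq_mod (2 ^ v.val) v.val
        rw [h6, Nat.mod_self]
      rw [h5, cond_true, memL_iff, mem_bms] at h3
      obtain ⟨c, hc, hc2⟩ := h3
      exact absurd ⟨c, hc, by rw [hc2, hs2]⟩ (hp2 j k hk)
    · rw [nbeq_iff] at h4
      exact h4.symm
  have hnew : ∀ j : Fin M, 0 < (p j).val → ∃ v : Fin n, v.val < Z ∧ v ∈ L.get (p j) ∧
      ∀ q : Fin L.length, q < p j → v ∉ L.get q := by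
    intro j hj
    obtain ⟨b, hb, hb2⟩ := hp1 j
    have hpos : 0 < L.length := lt_of_le_of_lt (Nat.zero_le _) (p j).isLt
    obtain ⟨k, hk, -, hk2⟩ := hsh ⟨0, hpos⟩ (p j) (by rw [Fin.lt_def]; exact hj)
    obtain ⟨v, hv⟩ := Finset.card_eq_one.1 hk2
    have hz1 := key j b hb hb2 k hk v hv
    have hv1 : v ∈ L.get (p j) := by
      have : v ∈ L.get (p j) \ L.get k := by rw [hv]; exact Finset.mem_singleton_self v
      exact (Finset.mem_sdiff.1 this).1
    refine ⟨v, hz _ j.isLt b hb _ hz1, hv1, ?_⟩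
    intro q hq hvq
    obtain ⟨k', hk', hk2', hk3'⟩ := hsh q (p j) hq
    obtain ⟨v', hv'⟩ := Finset.card_eq_one.1 hk3'
    have hz2 := key j b hb hb2 k' hk' v' hv'
    rw [hz1] at hz2
    have hvv : v = v' := Fin.ext (Nat.pow_right_injective (le_refl 2) hz2)
    have h1 : v ∈ L.get k' ∩ L.get (p j) := hk2' (Finset.mem_inter.2 ⟨hvq, hv1⟩)
    have h2 : v' ∈ L.get (p j) \ L.get k' := by rw [hv']; exact Finset.mem_singleton_self v'
    rw [← hvv] at h2
    exact (Finset.mem_sdiff.1 h2).2 (Finset.mem_inter.1 h1).1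
  -- pigeonhole
  have hpos : 0 < L.length := by
    have hM : 0 < M := by omega
    exact lt_of_le_of_lt (Nat.zero_le _) (p ⟨0, hM⟩).isLt
  classical
  let J : Finset (Fin M) := univ.filter fun j => 0 < (p j).val
  have hJ : M - 1 ≤ J.card := by
    have h1 : (univ.filter fun j : Fin M => ¬ 0 < (p j).val).card ≤ 1 := by
      rw [Finset.card_le_one]
      intro i hi j hj
      rw [Finset.mem_filter] at hi hj
      apply hinj
      apply Fin.ext
      have := hi.2
      have := hj.2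
      omega
    have h2 := Finset.card_filter_add_card_filter_not (s := (univ : Finset (Fin M))) (fun j => 0 < (p j).val)
    rw [Finset.card_univ, Fintype.card_fin] at h2
    have h3 : J.card = (univ.filter fun j : Fin M => 0 < (p j).val).card := rfl
    omega
  have hex : ∀ j : Fin M, ∃ v : ℕ, j ∈ J → v < Z ∧ ∃ v' : Fin n, v'.val = v ∧ v' ∈ L.get (p j) ∧
      ∀ q : Fin L.length, q < p j → v' ∉ L.get q := by
    intro j
    by_cases hj : j ∈ J
    · obtain ⟨v, h1, h2, h3⟩ := hnew j (Finset.mem_filter.1 hj).2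
      exact ⟨v.val, fun _ => ⟨h1, v, rfl, h2, h3⟩⟩
    · exact ⟨0, fun h => absurd h hj⟩
  choose f hf using hex
  have hlt : (Finset.range Z).card < J.card := by rw [Finset.card_range]; omega
  obtain ⟨i, hi, j, hj, hij, hfe⟩ := Finset.exists_ne_map_eq_of_card_lt_of_maps_to hlt
    (f := f) (fun j hj => Finset.mem_coe.2 (Finset.mem_range.2 (hf j hj).1))
  obtain ⟨_, v, hv, hv2, hv3⟩ := hf i hi
  obtain ⟨_, w, hw, hw2, hw3⟩ := hf j hj
  have hvw : v = w := Fin.ext (by rw [hv, hw, hfe])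
  subst hvw
  rcases lt_trichotomy (p i) (p j) with h | h | h
  · exact hw3 _ h hv2
  · exact hij (hinj h)
  · exact hv3 _ h hw2

end Pool.Agent.V11126.Cons
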