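import Pool.Agent.V11126.Cons.Frame

/-!
The realization of a list of bit masks and the realization of the family of subsets of `Fin n`.
-/

namespace Pool.Agent.V11126.Cons

open Finset

/-- the subset of `Fin n` with bit mask `m` -/
def toFin (n m : ℕ) : Finset (Fin n) := univ.filter fun i => m.testBit i.val = true

lemma mem_toFin {n m : ℕ} {i : Fin n} : i ∈ toFin n m ↔ m.testBit i.val = true := by
  simp [toFin]

/-- the family of subsets of `Fin n` given by a list of masks -/
def toFam (n : ℕ) (L : List ℕ) : Finset (Finset (Fin n)) := (L.map (toFin n)).toFinset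

lemma mem_toFam {n : ℕ} {L : List ℕ} {s : Finset (Fin n)} : s ∈ toFam n L ↔ ∃ m ∈ L, toFin n m = s := by
  simp [toFam]

/-- realization of a family of subsets of `Fin n` -/
def RF {n : ℕ} (F : Finset (Finset (Fin n))) : Set (Fin n → ℝ) :=
  {x : Fin n → ℝ | (∀ i, 0 ≤ x i) ∧ ∑ i, x i = 1 ∧ ∃ σ ∈ F, ∀ i, x i ≠ 0 → i ∈ σ}

lemma testBit_ge {n m v : ℕ} (h : m < 2 ^ n) (hv : n ≤ v) : m.testBit v = false := by
  apply Nat.testBit_lt_two_pow
  exact lt_of_lt_of_le h (Nat.pow_le_pow_right (by norm_num) hv)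

lemma sum_ext {n : ℕ} (hn : n ≤ 256) (x : ℕ → ℝ) (h : ∀ v, n ≤ v → x v = 0) :
    ∑ v ∈ Finset.range 256, x v = ∑ i : Fin n, x i.val := by
  rw [Fin.sum_univ_eq_sum_range (fun v => x v) n]
  symm
  apply Finset.sum_subset
  · intro v hv
    rw [Finset.mem_range] at *
    omega
  · intro v _ hv
    rw [Finset.mem_range, not_lt] at hv
    exact h v hv

theorem real_homeo {n : ℕ} (hn : n ≤ 256) (L : List ℕ) (hL : ∀ m ∈ L, m < 2 ^ n) :
    Nonempty (Rm L ≃ₜ RF (toFam n L)) := by
  have hz : ∀ x ∈ Rm L, ∀ v, n ≤ v → x v = 0 := by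
    rintro x ⟨_, ⟨m, hm, hm2⟩, _⟩ v hv
    exact hm2 v (testBit_ge (hL m hm) hv)
  refine ⟨⟨⟨fun x => ⟨fun i => x.1 i.val, ?_⟩, fun y => ⟨fun v => if h : v < n then y.1 ⟨v, h⟩ else 0, ?_⟩,
    ?_, ?_⟩, ?_, ?_⟩⟩
  · obtain ⟨x, hx⟩ := x
    have hz' := hz x hx
    obtain ⟨h0, ⟨m, hm, hm2⟩, hs⟩ := hx
    refine ⟨fun i => h0 i.val, ?_, toFin n m, mem_toFam.2 ⟨m, hm, rfl⟩, ?_⟩
    · rw [← sum_ext hn x hz']; exact hs
    · intro i hi
      rw [mem_toFin]
      by_contra hcon
      rw [Bool.not_eq_true] at hcon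
      exact hi (hm2 i.val hcon)
  · obtain ⟨y, h0, hs, σ, hσ, hy⟩ := y
    obtain ⟨m, hm, rfl⟩ := mem_toFam.1 hσ
    refine ⟨?_, ⟨m, hm, ?_⟩, ?_⟩
    · intro v
      dsimp only
      split_ifs with h
      · exact h0 _
      · exact le_rfl
    · intro v hv
      dsimp only
      split_ifs with h
      · by_contra hcon
        have := hy _ hcon
        rw [mem_toFin] at this
        dsimp only at this
        rw [hv] at this
        exact absurd this (by simp)
      · rfl
    · rw [sum_ext hn]
      · refine Eq.trans ?_ hs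
        apply Finset.sum_congr rfl
        intro i _
        simp [i.isLt]
      · intro v hv
        have : ¬ v < n := by omega
        simp [this]
  · rintro ⟨x, hx⟩
    apply Subtype.ext
    funext v
    dsimp only
    split_ifs with h
    · rfl
    · exact (hz x hx v (by omega)).symm
  · rintro ⟨y, hy⟩
    apply Subtype.ext
    funext i
    dsimp only
    simp [i.isLt]
  · apply Continuous.subtype_mk
    apply continuous_pi
    intro i
    exact (continuous_apply i.val).comp continuous_subtype_val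
  · apply Continuous.subtype_mk
    apply continuous_pi
    intro v
    by_cases h : v < n
    · simp only [h, dif_pos]
      exact (continuous_apply _).comp continuous_subtype_val
    · simp only [h, dif_neg, not_false_eq_true]
      exact continuous_const

end Pool.Agent.V11126.Cons
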