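import Mathlib

/-!
Stellar subdivisions preserve the geometric realization up to homeomorphism. Complexes are given by
lists of facets, a facet is a bit mask (with bits below 256).
-/

namespace Pool.Agent.V11126.Cons

open Finset

/-- the realization of the complex with facets `L` -/
def Rm (L : List ℕ) : Set (ℕ → ℝ) :=
  {x | (∀ v, 0 ≤ x v) ∧ (∃ m ∈ L, ∀ v, m.testBit v = false → x v = 0) ∧
    ∑ v ∈ Finset.range 256, x v = 1}

/-- `L'` is the stellar subdivision of `L` at the face `G` with new vertex `w` -/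
structure StelRel (L L' : List ℕ) (G : Finset ℕ) (w : ℕ) : Prop where
  ne : G.Nonempty
  sub : ∀ g ∈ G, g < 256
  wlt : w < 256
  wG : w ∉ G
  c1 : ∀ m ∈ L, m.testBit w = false
  c2 : ∀ m ∈ L, (∀ g ∈ G, m.testBit g = true) → ∀ g ∈ G, ∃ m' ∈ L', ∀ v, m'.testBit v = false →
    v ≠ w ∧ (v = g ∨ m.testBit v = false)
  c2' : ∀ m ∈ L, (∃ g ∈ G, m.testBit g = false) → m ∈ L'
  c3 : ∀ m' ∈ L', (m' ∈ L ∧ ∃ g ∈ G, m'.testBit g = false) ∨
    ∃ m ∈ L, (∀ g ∈ G, m.testBit g = true) ∧ (∀ v, v ≠ w → m.testBit v = false → m'.testBit v = false) ∧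
      ∃ g ∈ G, m'.testBit g = false

noncomputable def phi (G : Finset ℕ) (w : ℕ) (y : ℕ → ℝ) : ℕ → ℝ := fun v =>
  if v = w then 0 else if v ∈ G then y v + y w / G.card else y v

noncomputable def psi (G : Finset ℕ) (hG : G.Nonempty) (w : ℕ) (x : ℕ → ℝ) : ℕ → ℝ := fun v =>
  if v = w then G.card * G.inf' hG x else if v ∈ G then x v - G.inf' hG x else x v

lemma phi_cont (G : Finset ℕ) (w : ℕ) : Continuous (phi G w) := by
  apply continuous_pi
  intro v
  unfold phi
  split_ifs
  · exact continuous_const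
  · exact (continuous_apply v).add ((continuous_apply w).div_const _)
  · exact continuous_apply v

lemma psi_cont (G : Finset ℕ) (hG : G.Nonempty) (w : ℕ) : Continuous (psi G hG w) := by
  have h1 : Continuous (fun x : ℕ → ℝ => G.inf' hG x) :=
    Continuous.finset_inf'_apply hG (fun i _ => continuous_apply i)
  apply continuous_pi
  intro v
  unfold psi
  split_ifs
  · exact continuous_const.mul h1
  · exact (continuous_apply v).sub h1
  · exact continuous_apply v

lemma sum_adj (R G : Finset ℕ) (w : ℕ) (hw : w ∈ R) (hG : G ⊆ R) (hwG : w ∉ G) (c : ℝ) :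
    ∑ v ∈ R, (if v = w then -(G.card * c) else if v ∈ G then c else 0) = 0 := by
  have h1 : ∀ v ∈ R, (if v = w then -(G.card * c) else if v ∈ G then c else 0) =
      (if v = w then -(G.card * c) else 0) + (if v ∈ G then c else 0) := by
    intro v _
    by_cases hv : v = w
    · subst hv; simp [hwG]
    · simp [hv]
  rw [Finset.sum_congr rfl h1, Finset.sum_add_distrib, Finset.sum_ite_eq' R w, if_pos hw,
    Finset.sum_ite_mem, Finset.inter_eq_right.2 hG, Finset.sum_const, nsmul_eq_mul]
  ring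

variable {L L' : List ℕ} {G : Finset ℕ} {w : ℕ}

lemma StelRel.zero_of_mem (h : StelRel L L' G w) {x : ℕ → ℝ} (hx : x ∈ Rm L) : x w = 0 := by
  obtain ⟨_, ⟨m, hm, hm2⟩, _⟩ := hx
  exact hm2 w (h.c1 m hm)

lemma StelRel.exists_zero (h : StelRel L L' G w) {y : ℕ → ℝ} (hy : y ∈ Rm L') :
    ∃ g ∈ G, y g = 0 := by
  obtain ⟨_, ⟨m, hm, hm2⟩, _⟩ := hy
  rcases h.c3 m hm with ⟨_, g, hg, hg2⟩ | ⟨_, _, _, _, g, hg, hg2⟩
  · exact ⟨g, hg, hm2 g hg2⟩
  · exact ⟨g, hg, hm2 g hg2⟩

lemma StelRel.phi_mem (h : StelRel L L' G w) {y : ℕ → ℝ} (hy : y ∈ Rm L') : phi G w y ∈ Rm L := by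
  have hex := h.exists_zero hy
  obtain ⟨h0, ⟨m, hm, hm2⟩, hs⟩ := hy
  have hcard : (0 : ℝ) < G.card := by exact_mod_cast Finset.card_pos.2 h.ne
  refine ⟨?_, ?_, ?_⟩
  · intro v
    unfold phi
    split_ifs
    · exact le_rfl
    · exact add_nonneg (h0 v) (div_nonneg (h0 w) hcard.le)
    · exact h0 v
  · rcases h.c3 m hm with ⟨hmL, g, hg, hg2⟩ | ⟨m1, hm1, hG1, hsub, _⟩
    · refine ⟨m, hmL, ?_⟩
      have hw0 : y w = 0 := hm2 w (h.c1 m hmL)
      intro v hv
      unfold phi
      rw [hw0, hm2 v hv]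
      simp
    · refine ⟨m1, hm1, ?_⟩
      intro v hv
      unfold phi
      split_ifs with h1 h2
      · rfl
      · rw [hG1 v h2] at hv
        exact absurd hv (by simp)
      · exact hm2 v (hsub v h1 hv)
  · rw [← hs]
    have h1 : ∀ v ∈ Finset.range 256, phi G w y v = y v +
        (if v = w then -(G.card * (y w / G.card)) else if v ∈ G then y w / G.card else 0) := by
      intro v _
      unfold phi
      split_ifs with h1 h2
      · subst h1
        field_simp
        ring
      · rfl
      · ring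
    rw [Finset.sum_congr rfl h1, Finset.sum_add_distrib,
      sum_adj _ G w (Finset.mem_range.2 h.wlt) (fun g hg => Finset.mem_range.2 (h.sub g hg)) h.wG]
    ring

lemma StelRel.inf_zero (h : StelRel L L' G w) {x : ℕ → ℝ} (h0 : ∀ v, 0 ≤ x v) {g : ℕ} (hg : g ∈ G)
    (hxg : x g = 0) : G.inf' h.ne x = 0 := by
  apply le_antisymm
  · rw [← hxg]; exact Finset.inf'_le x hg
  · exact Finset.le_inf' h.ne x (fun v _ => h0 v)

lemma StelRel.psi_mem (h : StelRel L L' G w) {x : ℕ → ℝ} (hx : x ∈ Rm L) :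
    psi G h.ne w x ∈ Rm L' := by
  have hw0 := h.zero_of_mem hx
  obtain ⟨h0, ⟨m, hm, hm2⟩, hs⟩ := hx
  have hcard : (0 : ℝ) < G.card := by exact_mod_cast Finset.card_pos.2 h.ne
  have hinf : 0 ≤ G.inf' h.ne x := Finset.le_inf' h.ne x (fun v _ => h0 v)
  refine ⟨?_, ?_, ?_⟩
  · intro v
    unfold psi
    split_ifs with h1 h2
    · exact mul_nonneg hcard.le hinf
    · exact sub_nonneg.2 (Finset.inf'_le x h2)
    · exact h0 v
  · by_cases hall : ∀ g ∈ G, m.testBit g = true
    · obtain ⟨g, hg, hg2⟩ := Finset.exists_mem_eq_inf' h.ne x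
      obtain ⟨m', hm', hm'2⟩ := h.c2 m hm hall g hg
      refine ⟨m', hm', ?_⟩
      intro v hv
      obtain ⟨h1, h2⟩ := hm'2 v hv
      unfold psi
      rw [if_neg h1]
      rcases h2 with rfl | h2
      · rw [if_pos hg, hg2, sub_self]
      · have hvG : v ∉ G := by
          intro hv2
          rw [hall v hv2] at h2
          exact absurd h2 (by simp)
        rw [if_neg hvG]
        exact hm2 v h2
    · push Not at hall
      obtain ⟨g, hg, hg2⟩ := hall
      rw [ne_eq, Bool.not_eq_true] at hg2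
      have hz := h.inf_zero h0 hg (hm2 g hg2)
      refine ⟨m, h.c2' m hm ⟨g, hg, hg2⟩, ?_⟩
      intro v hv
      unfold psi
      rw [hz, hm2 v hv]
      simp
  · rw [← hs]
    have h1 : ∀ v ∈ Finset.range 256, psi G h.ne w x v = x v +
        (if v = w then -(G.card * (-(G.inf' h.ne x))) else if v ∈ G then -(G.inf' h.ne x) else 0) := by
      intro v _
      unfold psi
      split_ifs with h1 h2
      · subst h1
        rw [hw0]
        ring
      · ring
      · ring
    rw [Finset.sum_congr rfl h1, Finset.sum_add_distrib,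
      sum_adj _ G w (Finset.mem_range.2 h.wlt) (fun g hg => Finset.mem_range.2 (h.sub g hg)) h.wG]
    ring

lemma StelRel.phi_psi (h : StelRel L L' G w) {x : ℕ → ℝ} (hx : x ∈ Rm L) :
    phi G w (psi G h.ne w x) = x := by
  have hw0 := h.zero_of_mem hx
  have hcard : (G.card : ℝ) ≠ 0 := by
    have := Finset.card_pos.2 h.ne
    positivity
  funext v
  unfold phi psi
  by_cases h1 : v = w
  · rw [if_pos h1, h1, hw0]
  · rw [if_neg h1, if_neg h1]
    by_cases h2 : v ∈ G
    · rw [if_pos h2, if_pos h2, if_pos rfl]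
      field_simp
      ring
    · rw [if_neg h2, if_neg h2]

lemma StelRel.psi_phi (h : StelRel L L' G w) {y : ℕ → ℝ} (hy : y ∈ Rm L') :
    psi G h.ne w (phi G w y) = y := by
  obtain ⟨g, hg, hg0⟩ := h.exists_zero hy
  obtain ⟨h0, _, _⟩ := hy
  have hcard : (G.card : ℝ) ≠ 0 := by
    have := Finset.card_pos.2 h.ne
    positivity
  have hcard' : (0 : ℝ) < G.card := by exact_mod_cast Finset.card_pos.2 h.ne
  have hval : ∀ v ∈ G, phi G w y v = y v + y w / G.card := by
    intro v hv
    unfold phi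
    rw [if_neg (fun e : v = w => h.wG (e ▸ hv)), if_pos hv]
  have hinf : G.inf' h.ne (phi G w y) = y w / G.card := by
    apply le_antisymm
    · have := Finset.inf'_le (phi G w y) hg
      rw [hval g hg, hg0, zero_add] at this
      exact this
    · apply Finset.le_inf' h.ne
      intro v hv
      rw [hval v hv]
      linarith [h0 v]
  funext v
  unfold psi
  rw [hinf]
  by_cases h1 : v = w
  · rw [if_pos h1, h1]
    field_simp
  · rw [if_neg h1]
    by_cases h2 : v ∈ G
    · rw [if_pos h2, hval v h2]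
      ring
    · rw [if_neg h2]
      unfold phi
      rw [if_neg h1, if_neg h2]

theorem StelRel.homeo (h : StelRel L L' G w) : Nonempty (Rm L ≃ₜ Rm L') :=
  ⟨{ toFun := fun x => ⟨psi G h.ne w x, h.psi_mem x.2⟩
     invFun := fun y => ⟨phi G w y, h.phi_mem y.2⟩
     left_inv := fun x => Subtype.ext (h.phi_psi x.2)
     right_inv := fun y => Subtype.ext (h.psi_phi y.2)
     continuous_toFun := ((psi_cont G h.ne w).comp continuous_subtype_val).subtype_mk _
     continuous_invFun := ((phi_cont G w).comp continuous_subtype_val).subtype_mk _ }⟩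

/-! ### Checking moves on lists of masks -/

lemma nbeq_iff {a b : ℕ} : Nat.beq a b = true ↔ a = b :=
  ⟨Nat.eq_of_beq_eq_true, fun h => h ▸ Nat.beq_refl a⟩

noncomputable def allL (p : ℕ → Bool) (L : List ℕ) : Bool :=
  List.rec (motive := fun _ => Bool) true (fun m _ ih => cond (p m) ih false) L

lemma allL_iff (p : ℕ → Bool) (L : List ℕ) : allL p L = true ↔ ∀ m ∈ L, p m = true := by
  induction L with
  | nil => simp [allL]
  | cons m L ih =>
    have h1 : allL p (m :: L) = cond (p m) (allL p L) false := rfl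
    rw [h1, List.forall_mem_cons]
    cases hp : p m
    · simp
    · simp [ih]

noncomputable def memL (a : ℕ) (L : List ℕ) : Bool :=
  List.rec (motive := fun _ => Bool) false (fun m _ ih => cond (Nat.beq a m) true ih) L

lemma memL_iff (a : ℕ) (L : List ℕ) : memL a L = true ↔ a ∈ L := by
  induction L with
  | nil => simp [memL]
  | cons m L ih =>
    have h1 : memL a (m :: L) = cond (Nat.beq a m) true (memL a L) := rfl
    rw [h1, List.mem_cons]
    by_cases hp : a = m
    · subst hp
      simp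
    · have : Nat.beq a m = false := by
        cases hb : Nat.beq a m
        · rfl
        · exact absurd (nbeq_iff.1 hb) hp
      rw [this]
      simp [ih, hp]

noncomputable def filL (p : ℕ → Bool) (L : List ℕ) : List ℕ :=
  List.rec (motive := fun _ => List ℕ) [] (fun m _ ih => cond (p m) (m :: ih) ih) L

lemma filL_iff (p : ℕ → Bool) (L : List ℕ) (a : ℕ) : a ∈ filL p L ↔ a ∈ L ∧ p a = true := by
  induction L with
  | nil => simp [filL]
  | cons m L ih =>
    have h1 : filL p (m :: L) = cond (p m) (m :: filL p L) (filL p L) := rfl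
    rw [h1]
    cases hp : p m
    · simp only [cond_false, ih, List.mem_cons]
      constructor
      · rintro ⟨h1, h2⟩; exact ⟨Or.inr h1, h2⟩
      · rintro ⟨rfl | h1, h2⟩
        · rw [hp] at h2; exact absurd h2 (by simp)
        · exact ⟨h1, h2⟩
    · simp only [cond_true, List.mem_cons, ih]
      constructor
      · rintro (rfl | ⟨h1, h2⟩)
        · exact ⟨Or.inl rfl, hp⟩
        · exact ⟨Or.inr h1, h2⟩
      · rintro ⟨rfl | h1, h2⟩
        · exact Or.inl rfl
        · exact Or.inr ⟨h1, h2⟩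

/-- does the mask `m` contain the mask `g`? -/
def has (m g : ℕ) : Bool := Nat.beq (Nat.land m g) g

noncomputable def mapA (m w : ℕ) (gs : List ℕ) (R : List ℕ) : List ℕ :=
  List.rec (motive := fun _ => List ℕ) R (fun g _ ih => Nat.lor (Nat.xor m (2 ^ g)) (2 ^ w) :: ih) gs

lemma mapA_iff (m w : ℕ) (gs R : List ℕ) (a : ℕ) :
    a ∈ mapA m w gs R ↔ (∃ g ∈ gs, a = (m ^^^ 2 ^ g) ||| 2 ^ w) ∨ a ∈ R := by
  induction gs with
  | nil => simp [mapA]
  | cons g gs ih =>
    have h1 : mapA m w (g :: gs) R = Nat.lor (Nat.xor m (2 ^ g)) (2 ^ w) :: mapA m w gs R := rfl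
    rw [h1, List.mem_cons, ih]
    have h2 : Nat.lor (Nat.xor m (2 ^ g)) (2 ^ w) = (m ^^^ 2 ^ g) ||| 2 ^ w := rfl
    rw [h2]
    simp only [List.exists_mem_cons_iff, or_assoc]

/-- stellar subdivision -/
noncomputable def stelL (Gm w : ℕ) (gs : List ℕ) (L : List ℕ) : List ℕ :=
  List.rec (motive := fun _ => List ℕ) [] (fun m _ ih => cond (has m Gm) (mapA m w gs ih) (m :: ih)) L

lemma stelL_iff (Gm w : ℕ) (gs L : List ℕ) (a : ℕ) : a ∈ stelL Gm w gs L ↔
    (a ∈ L ∧ has a Gm = false) ∨ ∃ m ∈ L, has m Gm = true ∧ ∃ g ∈ gs, a = (m ^^^ 2 ^ g) ||| 2 ^ w := by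
  induction L with
  | nil => simp [stelL]
  | cons m L ih =>
    have h1 : stelL Gm w gs (m :: L) = cond (has m Gm) (mapA m w gs (stelL Gm w gs L))
      (m :: stelL Gm w gs L) := rfl
    rw [h1]
    cases hp : has m Gm
    · simp only [cond_false, List.mem_cons, ih]
      constructor
      · rintro (rfl | ⟨h1, h2⟩ | ⟨m1, h1, h2⟩)
        · exact Or.inl ⟨Or.inl rfl, hp⟩
        · exact Or.inl ⟨Or.inr h1, h2⟩
        · exact Or.inr ⟨m1, Or.inr h1, h2⟩
      · rintro (⟨rfl | h1, h2⟩ | ⟨m1, rfl | h1, h2⟩)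
        · exact Or.inl rfl
        · exact Or.inr (Or.inl ⟨h1, h2⟩)
        · rw [hp] at h2; exact absurd h2.1 (by simp)
        · exact Or.inr (Or.inr ⟨m1, h1, h2⟩)
    · simp only [cond_true, mapA_iff, List.mem_cons, ih]
      constructor
      · rintro (h1 | ⟨h1, h2⟩ | ⟨m1, h1, h2⟩)
        · exact Or.inr ⟨m, Or.inl rfl, hp, h1⟩
        · exact Or.inl ⟨Or.inr h1, h2⟩
        · exact Or.inr ⟨m1, Or.inr h1, h2⟩
      · rintro (⟨rfl | h1, h2⟩ | ⟨m1, rfl | h1, h2⟩)
        · rw [hp] at h2; exact absurd h2 (by simp)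
        · exact Or.inr (Or.inl ⟨h1, h2⟩)
        · exact Or.inl h2.2
        · exact Or.inr (Or.inr ⟨m1, h1, h2⟩)

/-- mask of a list -/
noncomputable def maskOf (gs : List ℕ) : ℕ :=
  List.rec (motive := fun _ => ℕ) 0 (fun g _ ih => Nat.lor (2 ^ g) ih) gs

lemma testBit_maskOf (gs : List ℕ) (v : ℕ) : (maskOf gs).testBit v = true ↔ v ∈ gs := by
  induction gs with
  | nil => simp [maskOf]
  | cons g gs ih =>
    have h1 : maskOf (g :: gs) = 2 ^ g ||| maskOf gs := rfl
    rw [h1, Nat.testBit_or, Nat.testBit_two_pow, Bool.or_eq_true, ih, decide_eq_true_iff,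
      List.mem_cons, eq_comm]

lemma has_iff (m g : ℕ) : has m g = true ↔ ∀ v, g.testBit v = true → m.testBit v = true := by
  unfold has
  rw [nbeq_iff]
  have h0 : Nat.land m g = m &&& g := rfl
  rw [h0]
  constructor
  · intro h v hv
    rw [← h, Nat.testBit_and, Bool.and_eq_true] at hv
    exact hv.1
  · intro h
    apply Nat.eq_of_testBit_eq
    intro v
    rw [Nat.testBit_and]
    cases hg : g.testBit v
    · simp
    · simp [h v hg]

lemma has_two_pow (m v : ℕ) : has m (2 ^ v) = m.testBit v := by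
  cases hb : m.testBit v
  · cases hh : has m (2 ^ v)
    · rfl
    · rw [has_iff] at hh
      have := hh v (Nat.testBit_two_pow_self)
      rw [hb] at this
      exact absurd this (by simp)
  · rw [has_iff]
    intro u hu
    rw [Nat.testBit_two_pow, decide_eq_true_iff] at hu
    rw [← hu, hb]

/-- basic conditions on a move -/
noncomputable def ckG (Gm w : ℕ) (gs : List ℕ) : Bool :=
  cond (Nat.beq Gm (maskOf gs)) (cond (Nat.ble 1 Gm) (cond (allL (fun g => Nat.blt g 256) gs)
    (cond (Nat.blt w 256) (cond (has Gm (2 ^ w)) false true) false) false) false) false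

lemma ckG_iff {Gm w : ℕ} {gs : List ℕ} (h : ckG Gm w gs = true) : Gm = maskOf gs ∧
    (gs.toFinset).Nonempty ∧ (∀ g ∈ gs.toFinset, g < 256) ∧ w < 256 ∧ w ∉ gs.toFinset := by
  unfold ckG at h
  cases h1 : Nat.beq Gm (maskOf gs)
  · rw [h1] at h; simp at h
  rw [h1, cond_true] at h
  cases h2 : Nat.ble 1 Gm
  · rw [h2] at h; simp at h
  rw [h2, cond_true] at h
  cases h3 : allL (fun g => Nat.blt g 256) gs
  · rw [h3] at h; simp at h
  rw [h3, cond_true] at h
  cases h4 : Nat.blt w 256
  · rw [h4] at h; simp at h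
  rw [h4, cond_true] at h
  cases h5 : has Gm (2 ^ w)
  swap
  · rw [h5] at h; simp at h
  rw [nbeq_iff] at h1
  rw [has_two_pow] at h5
  rw [allL_iff] at h3
  refine ⟨h1, ?_, ?_, ?_, ?_⟩
  · by_contra hne
    rw [Finset.not_nonempty_iff_eq_empty, List.toFinset_eq_empty_iff] at hne
    subst hne
    have h6 : Gm = 0 := h1
    subst h6
    simp at h2
  · intro g hg
    rw [List.mem_toFinset] at hg
    have := h3 g hg
    simpa [Nat.blt] using this
  · simpa [Nat.blt] using h4
  · intro hw
    rw [List.mem_toFinset, ← testBit_maskOf, ← h1, h5] at hw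
    exact absurd hw (by simp)

lemma testBit_move {m g w v : ℕ} : ((m ^^^ 2 ^ g) ||| 2 ^ w).testBit v =
    ((m.testBit v ^^ decide (g = v)) || decide (w = v)) := by
  rw [Nat.testBit_or, Nat.testBit_xor, Nat.testBit_two_pow, Nat.testBit_two_pow]

/-- check of a stellar subdivision -/
noncomputable def ckS (Gm w : ℕ) (gs L : List ℕ) : Bool :=
  cond (ckG Gm w gs) (allL (fun m => cond (has m (2 ^ w)) false true) L) false

lemma has_maskOf {Gm : ℕ} {gs : List ℕ} (h1 : Gm = maskOf gs) (m : ℕ) :
    has m Gm = true ↔ ∀ g ∈ gs.toFinset, m.testBit g = true := by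
  rw [has_iff, h1]
  simp only [testBit_maskOf, List.mem_toFinset]

lemma has_maskOf_false {Gm : ℕ} {gs : List ℕ} (h1 : Gm = maskOf gs) (m : ℕ) :
    has m Gm = false ↔ ∃ g ∈ gs.toFinset, m.testBit g = false := by
  have h2 := has_maskOf h1 m
  constructor
  · intro h
    by_contra hcon
    push Not at hcon
    rw [h2.2 (fun g hg => by simpa using hcon g hg)] at h
    exact absurd h (by simp)
  · rintro ⟨g, hg, hg2⟩
    by_contra hcon
    rw [Bool.not_eq_false] at hcon
    rw [h2.1 hcon g hg] at hg2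
    exact absurd hg2 (by simp)

lemma ckS_rel {Gm w : ℕ} {gs L : List ℕ} (h : ckS Gm w gs L = true) :
    StelRel L (stelL Gm w gs L) gs.toFinset w := by
  unfold ckS at h
  cases h1 : ckG Gm w gs
  · rw [h1] at h; simp at h
  rw [h1, cond_true, allL_iff] at h
  obtain ⟨hG, hne, hlt, hw, hwG⟩ := ckG_iff h1
  have hw1 : ∀ m ∈ L, m.testBit w = false := by
    intro m hm
    have := h m hm
    rw [has_two_pow] at this
    cases hb : m.testBit w
    · rfl
    · rw [hb] at this; simp at this
  refine ⟨hne, hlt, hw, hwG, hw1, ?_, ?_, ?_⟩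
  · intro m hm hall g hg
    refine ⟨(m ^^^ 2 ^ g) ||| 2 ^ w, ?_, ?_⟩
    · rw [stelL_iff]
      exact Or.inr ⟨m, hm, (has_maskOf hG m).2 hall, g, List.mem_toFinset.1 hg, rfl⟩
    · intro v hv
      rw [testBit_move, Bool.or_eq_false_iff, decide_eq_false_iff_not] at hv
      refine ⟨fun e => hv.2 e.symm, ?_⟩
      by_cases hgv : g = v
      · exact Or.inl hgv.symm
      · right
        have := hv.1
        rw [decide_eq_false hgv, Bool.xor_false] at this
        exact this
  · intro m hm hex
    rw [stelL_iff]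
    exact Or.inl ⟨hm, (has_maskOf_false hG m).2 hex⟩
  · intro m' hm'
    rw [stelL_iff] at hm'
    rcases hm' with ⟨h2, h3⟩ | ⟨m, hm, h2, g, hg, rfl⟩
    · exact Or.inl ⟨h2, (has_maskOf_false hG m').1 h3⟩
    · right
      have hall := (has_maskOf hG m).1 h2
      refine ⟨m, hm, hall, ?_, g, List.mem_toFinset.2 hg, ?_⟩
      · intro v hvw hv
        rw [testBit_move, hv]
        have hgv : g ≠ v := by
          rintro rfl
          rw [hall g (List.mem_toFinset.2 hg)] at hv
          exact absurd hv (by simp)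
        rw [decide_eq_false hgv, decide_eq_false (fun e => hvw e.symm)]
        rfl
      · rw [testBit_move, hall g (List.mem_toFinset.2 hg), decide_eq_true rfl,
          decide_eq_false (fun e : w = g => hwG (e ▸ List.mem_toFinset.2 hg))]
        rfl

/-- the part of the result of a weld which contains the face `Gm` -/
noncomputable def weldA (w g0 : ℕ) (L : List ℕ) : List ℕ :=
  List.rec (motive := fun _ => List ℕ) [] (fun m _ ih =>
    cond (has m (2 ^ w)) (cond (has m (2 ^ g0)) ih (Nat.lor (Nat.xor m (2 ^ w)) (2 ^ g0) :: ih)) ih) L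

lemma weldA_iff (w g0 : ℕ) (L : List ℕ) (a : ℕ) : a ∈ weldA w g0 L ↔
    ∃ m ∈ L, has m (2 ^ w) = true ∧ has m (2 ^ g0) = false ∧ a = (m ^^^ 2 ^ w) ||| 2 ^ g0 := by
  induction L with
  | nil => simp [weldA]
  | cons m L ih =>
    have h1 : weldA w g0 (m :: L) = cond (has m (2 ^ w)) (cond (has m (2 ^ g0)) (weldA w g0 L)
      (Nat.lor (Nat.xor m (2 ^ w)) (2 ^ g0) :: weldA w g0 L)) (weldA w g0 L) := rfl
    rw [h1, List.exists_mem_cons_iff]
    cases hp : has m (2 ^ w)
    · rw [cond_false, ih]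
      simp
    · rw [cond_true]
      cases hq : has m (2 ^ g0)
      · rw [cond_false, List.mem_cons, ih]
        have h2 : Nat.lor (Nat.xor m (2 ^ w)) (2 ^ g0) = (m ^^^ 2 ^ w) ||| 2 ^ g0 := rfl
        rw [h2]
        simp
      · rw [cond_true, ih]
        simp

/-- the result of a weld -/
noncomputable def weldL (w : ℕ) (A L : List ℕ) : List ℕ :=
  List.rec (motive := fun _ => List ℕ) A (fun m _ ih => cond (has m (2 ^ w)) ih (m :: ih)) L

lemma weldL_iff (w : ℕ) (A L : List ℕ) (a : ℕ) : a ∈ weldL w A L ↔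
    a ∈ A ∨ (a ∈ L ∧ has a (2 ^ w) = false) := by
  induction L with
  | nil => simp [weldL]
  | cons m L ih =>
    have h1 : weldL w A (m :: L) = cond (has m (2 ^ w)) (weldL w A L) (m :: weldL w A L) := rfl
    rw [h1]
    cases hp : has m (2 ^ w)
    · rw [cond_false, List.mem_cons, ih, List.mem_cons]
      constructor
      · rintro (rfl | h1 | ⟨h1, h2⟩)
        · exact Or.inr ⟨Or.inl rfl, hp⟩
        · exact Or.inl h1
        · exact Or.inr ⟨Or.inr h1, h2⟩
      · rintro (h1 | ⟨rfl | h1, h2⟩)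
        · exact Or.inr (Or.inl h1)
        · exact Or.inl rfl
        · exact Or.inr (Or.inr ⟨h1, h2⟩)
    · rw [cond_true, ih, List.mem_cons]
      constructor
      · rintro (h1 | ⟨h1, h2⟩)
        · exact Or.inl h1
        · exact Or.inr ⟨Or.inr h1, h2⟩
      · rintro (h1 | ⟨rfl | h1, h2⟩)
        · exact Or.inl h1
        · rw [hp] at h2; exact absurd h2 (by simp)
        · exact Or.inr ⟨h1, h2⟩

noncomputable def ckW (Gm w g0 : ℕ) (gs A L : List ℕ) : Bool :=
  cond (ckG Gm w gs)
    (cond (allL (fun m => cond (has m (2 ^ w)) true (cond (has m Gm) false true)) L)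
      (cond (allL (fun m => memL m (filL (fun m => has m (2 ^ w)) L)) (stelL Gm w gs A))
        (cond (allL (fun m => memL m (stelL Gm w gs A)) (filL (fun m => has m (2 ^ w)) L))
          (allL (fun m => cond (has m (2 ^ w)) false true) A) false) false) false) false

lemma ckW_rel {Gm w g0 : ℕ} {gs A L : List ℕ} (h : ckW Gm w g0 gs A L = true) :
    StelRel (weldL w A L) L gs.toFinset w := by
  unfold ckW at h
  cases h1 : ckG Gm w gs
  · rw [h1] at h; simp at h
  rw [h1, cond_true] at h
  cases h2 : allL (fun m => cond (has m (2 ^ w)) true (cond (has m Gm) false true)) L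
  · rw [h2] at h; simp at h
  rw [h2, cond_true] at h
  cases h3 : allL (fun m => memL m (filL (fun m => has m (2 ^ w)) L)) (stelL Gm w gs A)
  · rw [h3] at h; simp at h
  rw [h3, cond_true] at h
  cases h4 : allL (fun m => memL m (stelL Gm w gs A)) (filL (fun m => has m (2 ^ w)) L)
  · rw [h4] at h; simp at h
  rw [h4, cond_true] at h
  rw [allL_iff] at h2 h3 h4 h
  simp only [memL_iff, filL_iff] at h3 h4
  obtain ⟨hG, hne, hlt, hw, hwG⟩ := ckG_iff h1
  have hA : ∀ m ∈ A, has m (2 ^ w) = false := by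
    intro m hm
    have := h m hm
    cases hb : has m (2 ^ w)
    · rfl
    · rw [hb] at this; simp at this
  have hL : ∀ m ∈ L, has m (2 ^ w) = false → has m Gm = false := by
    intro m hm hmw
    have := h2 m hm
    rw [hmw, cond_false] at this
    cases hb : has m Gm
    · rfl
    · rw [hb] at this; simp at this
  have hAG : ∀ m ∈ A, has m Gm = true := by
    intro m hm
    by_contra hcon
    rw [Bool.not_eq_true] at hcon
    have h5 := (h3 m ((stelL_iff _ _ _ _ _).2 (Or.inl ⟨hm, hcon⟩))).2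
    rw [hA m hm] at h5
    exact absurd h5 (by simp)
  refine ⟨hne, hlt, hw, hwG, ?_, ?_, ?_, ?_⟩
  · intro m hm
    rw [weldL_iff] at hm
    rw [← has_two_pow]
    rcases hm with hm | hm
    · exact hA m hm
    · exact hm.2
  · intro m hm hall g hg
    rw [weldL_iff] at hm
    rcases hm with hm | ⟨hm, hm2⟩
    · refine ⟨(m ^^^ 2 ^ g) ||| 2 ^ w, (h3 _ ((stelL_iff _ _ _ _ _).2
        (Or.inr ⟨m, hm, hAG m hm, g, List.mem_toFinset.1 hg, rfl⟩))).1, ?_⟩
      intro v hv
      rw [testBit_move, Bool.or_eq_false_iff, decide_eq_false_iff_not] at hv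
      refine ⟨fun e => hv.2 e.symm, ?_⟩
      by_cases hgv : g = v
      · exact Or.inl hgv.symm
      · right
        have := hv.1
        rw [decide_eq_false hgv, Bool.xor_false] at this
        exact this
    · have h5 := hL m hm hm2
      rw [(has_maskOf hG m).2 hall] at h5
      exact absurd h5 (by simp)
  · intro m hm hex
    rw [weldL_iff] at hm
    rcases hm with hm | ⟨hm, hm2⟩
    · have h5 := hAG m hm
      rw [(has_maskOf_false hG m).2 hex] at h5
      exact absurd h5 (by simp)
    · exact hm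
  · intro m' hm'
    cases hb : has m' (2 ^ w)
    · left
      exact ⟨(weldL_iff _ _ _ _).2 (Or.inr ⟨hm', hb⟩), (has_maskOf_false hG m').1 (hL m' hm' hb)⟩
    · right
      have h5 := h4 m' ⟨hm', hb⟩
      rw [stelL_iff] at h5
      rcases h5 with ⟨h6, h7⟩ | ⟨m, hm, h6, g, hg, rfl⟩
      · rw [hAG m' h6] at h7
        exact absurd h7 (by simp)
      · have hall := (has_maskOf hG m).1 h6
        refine ⟨m, (weldL_iff _ _ _ _).2 (Or.inl hm), hall, ?_, g, List.mem_toFinset.2 hg, ?_⟩
        · intro v hvw hv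
          rw [testBit_move, hv]
          have hgv : g ≠ v := by
            rintro rfl
            rw [hall g (List.mem_toFinset.2 hg)] at hv
            exact absurd hv (by simp)
          rw [decide_eq_false hgv, decide_eq_false (fun e => hvw e.symm)]
          rfl
        · rw [testBit_move, hall g (List.mem_toFinset.2 hg), decide_eq_true rfl,
            decide_eq_false (fun e : w = g => hwG (e ▸ List.mem_toFinset.2 hg))]
          rfl

/-- a move: `(0, ...)` stellar subdivision, `(1, ...)` weld; then the mask of the face, the new (old)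
vertex, one vertex of the face, the face -/
structure Mv where
  t : ℕ
  Gm : ℕ
  w : ℕ
  g0 : ℕ
  gs : List ℕ

def eqL : List ℕ → List ℕ → Bool
  | [], [] => true
  | a :: l, b :: l' => cond (Nat.beq a b) (eqL l l') false
  | _, _ => false

lemma eqL_eq : ∀ {l l' : List ℕ}, eqL l l' = true → l = l'
  | [], [], _ => rfl
  | a :: l, b :: l', h => by
    unfold eqL at h
    cases h1 : Nat.beq a b
    · rw [h1] at h; simp at h
    · rw [h1, cond_true] at h
      rw [nbeq_iff] at h1
      rw [h1, eqL_eq h]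
  | [], _ :: _, h => by simp [eqL] at h
  | _ :: _, [], h => by simp [eqL] at h

noncomputable def runM (Lf : List ℕ) (ms : List Mv) : List ℕ → Bool :=
  List.rec (motive := fun _ => List ℕ → Bool) (fun L => eqL L Lf)
    (fun mv _ ih L => cond (Nat.beq mv.t 0)
      (cond (ckS mv.Gm mv.w mv.gs L) (ih (stelL mv.Gm mv.w mv.gs L)) false)
      (cond (ckW mv.Gm mv.w mv.g0 mv.gs (weldA mv.w mv.g0 L) L)
        (ih (weldL mv.w (weldA mv.w mv.g0 L) L)) false)) ms

theorem runM_homeo (Lf : List ℕ) (ms : List Mv) : ∀ L : List ℕ, runM Lf ms L = true →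
    Nonempty (Rm L ≃ₜ Rm Lf) := by
  induction ms with
  | nil =>
    intro L h
    have : L = Lf := eqL_eq h
    subst this
    exact ⟨Homeomorph.refl _⟩
  | cons mv ms ih =>
    intro L h
    have h1 : runM Lf (mv :: ms) L = cond (Nat.beq mv.t 0)
      (cond (ckS mv.Gm mv.w mv.gs L) (runM Lf ms (stelL mv.Gm mv.w mv.gs L)) false)
      (cond (ckW mv.Gm mv.w mv.g0 mv.gs (weldA mv.w mv.g0 L) L)
        (runM Lf ms (weldL mv.w (weldA mv.w mv.g0 L) L)) false) := rfl
    rw [h1] at h
    cases h2 : Nat.beq mv.t 0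
    · rw [h2, cond_false] at h
      cases h3 : ckW mv.Gm mv.w mv.g0 mv.gs (weldA mv.w mv.g0 L) L
      · rw [h3] at h; simp at h
      · rw [h3, cond_true] at h
        obtain ⟨e1⟩ := ih _ h
        obtain ⟨e2⟩ := (ckW_rel h3).homeo
        exact ⟨e2.symm.trans e1⟩
    · rw [h2, cond_true] at h
      cases h3 : ckS mv.Gm mv.w mv.gs L
      · rw [h3] at h; simp at h
      · rw [h3, cond_true] at h
        obtain ⟨e1⟩ := ih _ h
        obtain ⟨e2⟩ := (ckS_rel h3).homeo
        exact ⟨e2.trans e1⟩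

end Pool.Agent.V11126.Cons
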